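import Pool.Agent.H661R3.CM.Reg

/-! Freeness of the `v`-torsion of a depth two module over the abstract `A_∞` ring. -/

set_option autoImplicit false
set_option linter.unusedSectionVars false

namespace Pool.Agent.H661R3.CM

open IsLocalRing
open scoped Pointwise

/-- torsion-freeness over a local ring with principal maximal ideal is regularity of the generator. -/
theorem torsionFree_of_regular {D : Type*} [CommRing D] [IsLocalRing D] [IsNoetherianRing D] [IsDomain D]
    (p : D) (hp : maximalIdeal D = Ideal.span {p}) (Z : Type*) [AddCommGroup Z] [Module D Z]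
    (hreg : ∀ z : Z, p • z = 0 → z = 0) : Module.IsTorsionFree D Z := by
  rw [Module.isTorsionFree_iff_smul_eq_zero]
  intro b z hz
  by_cases hb : b = 0
  · left; exact hb
  · right
    obtain ⟨k, c, hc, rfl⟩ := exists_unit_mul_pow p hp b hb
    have h1 : p ^ k • z = 0 := by
      obtain ⟨d, hd⟩ := hc.exists_left_inv
      have : d • ((c * p ^ k) • z) = p ^ k • z := by rw [smul_smul, ← mul_assoc, hd, one_mul]
      rw [← this, hz, smul_zero]
    have : ∀ (j : ℕ) (z : Z), p ^ j • z = 0 → z = 0 := by
      intro j
      induction j with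
      | zero => intro z hz; simpa using hz
      | succ j ih => intro z hz; rw [pow_succ, mul_smul] at hz; exact hreg _ (ih _ hz)
    exact this k z h1

theorem pir_of_principal {D : Type*} [CommRing D] [IsLocalRing D] [IsNoetherianRing D] [IsDomain D]
    (p : D) (hp : maximalIdeal D = Ideal.span {p}) : IsPrincipalIdealRing D := by
  have := (tfae_of_isNoetherianRing_of_isLocalRing_of_isDomain D).out 4 0
  exact this.1 ⟨⟨p, by rw [hp, Ideal.submodule_span_eq]⟩⟩

section
variable {T : Type*} [CommRing T] [IsLocalRing T] [IsNoetherianRing T] {x u v : T}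
variable {N : Type*} [AddCommGroup N] [Module T N] [Module.Finite T N]

theorem AInf.xmem (h : AInf T x u v) : x ∈ maximalIdeal T := by
  rw [h.max]; exact Ideal.subset_span (by simp)
theorem AInf.umem (h : AInf T x u v) : u ∈ maximalIdeal T := by
  rw [h.max]; exact Ideal.subset_span (by simp)
theorem AInf.vmem (h : AInf T x u v) : v ∈ maximalIdeal T := by
  rw [h.max]; exact Ideal.subset_span (by simp)

theorem span_v_ne_top {v : T} (hv : v ∈ maximalIdeal T) : Ideal.span {v} ≠ ⊤ := by
  intro htop
  rw [Ideal.span_singleton_eq_top] at htop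
  exact hv htop

theorem AInf.free1 (h : AInf T x u v)
    (hx : ∀ n : N, x • n = 0 → n = 0)
    (hw : ∀ n n' : N, (u + v) • n = x • n' → ∃ n'' : N, n = x • n'') :
    Module.Free (T ⧸ Ideal.span {v}) (Submodule.torsionBy T N v) := by
  have hv := span_v_ne_top h.vmem
  have := quot_local _ hv
  set A := T ⧸ Ideal.span {v} with hA
  set M1 := Submodule.torsionBy T N v with hM1
  have hfin : Module.Finite T M1 := inferInstance
  have hfin' : Module.Finite A M1 := Module.Finite.of_restrictScalars_finite T A M1
  have hxA : Ideal.Quotient.mk (Ideal.span {v}) x ∈ maximalIdeal A := by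
    rw [max_quot _ hv]; exact Ideal.mem_map_of_mem _ h.xmem
  have hjac : Ideal.Quotient.mk (Ideal.span {v}) x ∈ (⊥ : Ideal A).jacobson := by
    rw [IsLocalRing.jacobson_eq_maximalIdeal _ bot_ne_top]; exact hxA
  have hreg : IsSMulRegular M1 (Ideal.Quotient.mk (Ideal.span {v}) x) := by
    rw [isSMulRegular_iff_right_eq_zero_of_smul]
    intro m hm
    have h1 : x • (m : N) = 0 := congrArg Subtype.val hm
    exact Subtype.ext (hx _ h1)
  have hfp : Module.FinitePresentation A M1 := Module.finitePresentation_of_finite A M1
  rw [← Module.free_quotSMulTop_iff_free A M1 hjac hreg]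
  -- the ring B
  have hprime : (Ideal.span {Ideal.Quotient.mk (Ideal.span {v}) x}).IsPrime := by
    have hmap : (Ideal.span {v, x}).map (Ideal.Quotient.mk (Ideal.span {v})) =
        Ideal.span {Ideal.Quotient.mk (Ideal.span {v}) x} := by
      rw [Ideal.map_span]
      apply le_antisymm
      · rw [Ideal.span_le]
        rintro _ ⟨t, ht, rfl⟩
        rcases ht with rfl | rfl
        · have : Ideal.Quotient.mk (Ideal.span {t}) t = 0 :=
            Ideal.Quotient.eq_zero_iff_mem.2 (Ideal.mem_span_singleton_self t)
          rw [this]; exact Ideal.zero_mem _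
        · exact Ideal.subset_span rfl
      · rw [Ideal.span_le]
        rintro _ rfl
        exact Ideal.subset_span ⟨x, by simp, rfl⟩
    rw [← hmap]
    have := h.pvx
    apply Ideal.map_isPrime_of_surjective Ideal.Quotient.mk_surjective
    rw [Ideal.mk_ker]
    exact Ideal.span_mono (by simp)
  set B := A ⧸ Ideal.span {Ideal.Quotient.mk (Ideal.span {v}) x} with hB
  have hBdom : IsDomain B := (Ideal.Quotient.isDomain_iff_prime _).2 hprime
  have hBloc : IsLocalRing B := quot_local _ hprime.ne_top
  set p : B := Ideal.Quotient.mk _ (Ideal.Quotient.mk (Ideal.span {v}) u) with hp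
  have hBmax : maximalIdeal B = Ideal.span {p} := by
    rw [max_quot _ hprime.ne_top, max_quot _ hv, h.max, Ideal.map_span, Ideal.map_span]
    apply le_antisymm
    · rw [Ideal.span_le]
      rintro _ ⟨_, ⟨t, ht, rfl⟩, rfl⟩
      rcases ht with rfl | rfl | rfl
      · have : (Ideal.Quotient.mk (Ideal.span {Ideal.Quotient.mk (Ideal.span {v}) t}))
            (Ideal.Quotient.mk (Ideal.span {v}) t) = 0 :=
          Ideal.Quotient.eq_zero_iff_mem.2 (Ideal.mem_span_singleton_self _)
        rw [this]; exact Ideal.zero_mem _
      · exact Ideal.subset_span rfl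
      · have : Ideal.Quotient.mk (Ideal.span {t}) t = 0 :=
            Ideal.Quotient.eq_zero_iff_mem.2 (Ideal.mem_span_singleton_self t)
        rw [this, map_zero]; exact Ideal.zero_mem _
    · rw [Ideal.span_le]
      rintro _ rfl
      exact Ideal.subset_span ⟨_, ⟨u, by simp, rfl⟩, rfl⟩
  have hpir : IsPrincipalIdealRing B := pir_of_principal p hBmax
  have htf : Module.IsTorsionFree B (QuotSMulTop (Ideal.Quotient.mk (Ideal.span {v}) x) M1) := by
    apply torsionFree_of_regular p hBmax
    intro z hz
    obtain ⟨m, rfl⟩ := Submodule.Quotient.mk_surjective _ z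
    have h1 : Submodule.Quotient.mk (p := (Ideal.Quotient.mk (Ideal.span {v}) x) •
        (⊤ : Submodule A M1)) (Ideal.Quotient.mk (Ideal.span {v}) u • m) = 0 := hz
    rw [Submodule.Quotient.mk_eq_zero] at h1
    obtain ⟨m', -, hm'⟩ := (Submodule.mem_smul_pointwise_iff_exists _ _ _).1 h1
    have h2 : x • (m' : N) = u • (m : N) := congrArg Subtype.val hm'
    have hvm : v • (m : N) = 0 := m.2
    obtain ⟨n, hn⟩ := hw (m : N) (m' : N) (by rw [add_smul, hvm, add_zero, h2])
    have hvn : v • n = 0 := by
      apply hx
      rw [smul_comm, ← hn, hvm]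
    rw [Submodule.Quotient.mk_eq_zero]
    apply (Submodule.mem_smul_pointwise_iff_exists _ _ _).2
    exact ⟨⟨n, hvn⟩, trivial, Subtype.ext hn.symm⟩
  have hfinB : Module.Finite B (QuotSMulTop (Ideal.Quotient.mk (Ideal.span {v}) x) M1) :=
    Module.Finite.of_restrictScalars_finite A B _
  infer_instance

end

end Pool.Agent.H661R3.CM
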