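import Pool.Agent.H661R3.CM.Herb
import Pool.Agent.H661R3.CM.Free

/-! The Herbrand type invariant vanishes on modules extended from `R`. -/

set_option autoImplicit false
set_option linter.unusedSectionVars false

namespace Pool.Agent.H661R3.CM

open IsLocalRing TensorProduct

section
variable {T : Type*} [CommRing T]
variable {X : Type*} [AddCommGroup X] [Module T X]

theorem LL_zero {A B : Submodule T X} (h : B ≤ A) : LL A B = 0 := by
  unfold LL
  rw [Module.length_eq_zero_iff]
  constructor
  intro a b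
  obtain ⟨a, rfl⟩ := Submodule.Quotient.mk_surjective _ a
  obtain ⟨b, rfl⟩ := Submodule.Quotient.mk_surjective _ b
  rw [Submodule.Quotient.eq]
  exact h (a - b).2

theorem LL_eq_zero_imp {A B : Submodule T X} (h : LL A B = 0) : B ≤ A := by
  unfold LL at h
  rw [Module.length_eq_zero_iff] at h
  intro b hb
  have : (Submodule.Quotient.mk (⟨b, hb⟩ : B) : (↥B ⧸ A.submoduleOf B)) = 0 := Subsingleton.elim _ _
  rw [Submodule.Quotient.mk_eq_zero] at this
  exact this

theorem Bal.subsingleton [Subsingleton X] (u v : T) : Bal u v X := by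
  unfold Bal hh
  have h1 : ∀ A B : Submodule T X, LL A B = 0 := by
    intro A B
    apply LL_zero
    intro b _
    rw [Subsingleton.elim b 0]; exact A.zero_mem
  rw [h1, h1]
  exact ⟨rfl, by simp⟩

/-- `T ⧸ g T` has vanishing invariants when `g` is a nonzerodivisor. -/
theorem Bal.quot_reg {u v : T} (huv : u * v = 0) (annu : ∀ t, u * t = 0 → v ∣ t)
    (annv : ∀ t, v * t = 0 → u ∣ t) (g : T) (hg : ∀ t, g * t = 0 → t = 0) (I : Ideal T)
    (hI : I = Ideal.span {g}) : Bal u v (T ⧸ I) := by
  have key : ∀ (p q : T), p * q = 0 → (∀ t, p * t = 0 → q ∣ t) → (∀ t, q * t = 0 → p ∣ t) →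
      hh p q (T ⧸ I) = 0 := by
    intro p q hpq hp hq
    unfold hh
    apply LL_zero
    intro y hy
    obtain ⟨t, rfl⟩ := Ideal.Quotient.mk_surjective y
    have hy' : q • (Ideal.Quotient.mk I t) = 0 := hy
    have h1 : Ideal.Quotient.mk I (q * t) = 0 := hy'
    rw [Ideal.Quotient.eq_zero_iff_mem, hI, Ideal.mem_span_singleton] at h1
    obtain ⟨s, hs⟩ := h1
    have h2 : g * (p * s) = 0 := by
      calc g * (p * s) = p * (g * s) := by ring
        _ = p * (q * t) := by rw [hs]
        _ = (p * q) * t := by ring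
        _ = 0 := by rw [hpq, zero_mul]
    obtain ⟨s', rfl⟩ := hp s (hg _ h2)
    have h3 : q * (t - g * s') = 0 := by
      rw [mul_sub, hs]; ring
    obtain ⟨r, hr⟩ := hq _ h3
    refine ⟨Ideal.Quotient.mk I r, ?_⟩
    show Ideal.Quotient.mk I (p * r) = Ideal.Quotient.mk I t
    rw [← hr, ← sub_eq_zero, ← map_sub, Ideal.Quotient.eq_zero_iff_mem, hI, Ideal.mem_span_singleton]
    exact ⟨-s', by ring⟩
  unfold Bal
  rw [key u v huv annu annv, key v u (by rw [mul_comm]; exact huv) annv annu]
  exact ⟨rfl, by simp⟩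

theorem Bal.quot_max {u v : T} [IsLocalRing T] (hu : u ∈ maximalIdeal T) (hv : v ∈ maximalIdeal T)
    (I : Ideal T) (hI : I = maximalIdeal T) : Bal u v (T ⧸ I) := by
  have key : ∀ (p q : T), p ∈ maximalIdeal T → q ∈ maximalIdeal T →
      hh p q (T ⧸ I) = LL (⊥ : Submodule T (T ⧸ I)) ⊤ := by
    intro p q hp hq
    unfold hh
    have h0 : ∀ r ∈ maximalIdeal T, ∀ y : T ⧸ I, r • y = 0 := by
      intro r hr y
      obtain ⟨t, rfl⟩ := Ideal.Quotient.mk_surjective y
      show Ideal.Quotient.mk I (r * t) = 0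
      rw [Ideal.Quotient.eq_zero_iff_mem, hI]
      exact Ideal.mul_mem_right _ _ hr
    have e1 : LinearMap.range (LinearMap.lsmul T (T ⧸ I) p) = ⊥ := by
      rw [eq_bot_iff]
      rintro _ ⟨y, rfl⟩
      exact h0 p hp y
    have e2 : Submodule.torsionBy T (T ⧸ I) q = ⊤ := by
      rw [eq_top_iff]
      intro y _
      exact h0 q hq y
    rw [e1, e2]
  unfold Bal
  rw [key u v hu hv, key v u hv hu]
  refine ⟨rfl, ?_⟩
  have h1 : LL (⊥ : Submodule T (T ⧸ I)) ⊤ = Module.length T (T ⧸ I) := by
    apply LL_eq_of_surj _ _ (Submodule.subtype ⊤)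
    · intro y; exact ⟨⟨y, trivial⟩, rfl⟩
    · ext y
      rw [LinearMap.mem_ker]
      exact Iff.rfl
  rw [h1]
  have : I.IsMaximal := by rw [hI]; exact maximalIdeal.isMaximal T
  have hs : IsSimpleModule T (T ⧸ I) := by
    rw [isSimpleModule_iff_isCoatom]
    exact this.out
  rw [Module.length_eq_one]
  simp

end

section
variable {R : Type*} [CommRing R] [IsLocalRing R] [IsNoetherianRing R]
variable {T : Type*} [CommRing T] [IsLocalRing T] [Algebra R T] [Module.Flat R T]

theorem bal_tensor {u v : T} (huv : u * v = 0) (annu : ∀ t, u * t = 0 → v ∣ t)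
    (annv : ∀ t, v * t = 0 → u ∣ t) (hu : u ∈ maximalIdeal T) (hv : v ∈ maximalIdeal T)
    (hmax : (maximalIdeal R).map (algebraMap R T) = maximalIdeal T)
    (hreg : ∀ g : R, g ≠ 0 → ∀ t : T, algebraMap R T g * t = 0 → t = 0)
    (hprimes : ∀ p : Ideal R, p.IsPrime → (∃ g, p = Ideal.span {g}) ∨ p = maximalIdeal R)
    (M : Type*) [AddCommGroup M] [Module R M] (hM : Module.Finite R M) : Bal u v (T ⊗[R] M) := by
  induction hM using IsNoetherianRing.induction_on_isQuotientEquivQuotientPrime R with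
  | subsingleton N => exact Bal.subsingleton u v
  | quotient N p e =>
    have e1 : T ⊗[R] N ≃ₗ[T] T ⊗[R] (R ⧸ p.1) := e.baseChange R T N (R ⧸ p.1)
    have e2 := (Algebra.TensorProduct.quotIdealMapEquivTensorQuot T p.1).toLinearEquiv
    apply Bal.equiv (e2.trans e1.symm)
    rcases hprimes p.1 p.2 with ⟨g, hg⟩ | hm
    · by_cases hg0 : g = 0
      · -- zero ideal
        have hI : p.1.map (algebraMap R T) = ⊥ := by
          rw [hg, hg0]; simp
        have key : ∀ (p' q : T), p' * q = 0 → (∀ t, p' * t = 0 → q ∣ t) → (∀ t, q * t = 0 → p' ∣ t) →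
            hh p' q (T ⧸ p.1.map (algebraMap R T)) = 0 := by
          intro p' q hpq hp hq
          unfold hh
          apply LL_zero
          intro y hy
          obtain ⟨t, rfl⟩ := Ideal.Quotient.mk_surjective y
          have hy' : q • (Ideal.Quotient.mk (p.1.map (algebraMap R T)) t) = 0 := hy
          have h1 : Ideal.Quotient.mk (p.1.map (algebraMap R T)) (q * t) = 0 := hy'
          rw [Ideal.Quotient.eq_zero_iff_mem, hI, Ideal.mem_bot] at h1
          obtain ⟨r, rfl⟩ := hq t h1
          exact ⟨Ideal.Quotient.mk _ r, rfl⟩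
        unfold Bal
        rw [key u v huv annu annv, key v u (by rw [mul_comm]; exact huv) annv annu]
        exact ⟨rfl, by simp⟩
      · apply Bal.quot_reg huv annu annv (algebraMap R T g) (hreg g hg0)
        rw [hg, Ideal.map_span, Set.image_singleton]
    · apply Bal.quot_max hu hv
      rw [hm, hmax]
  | exact N1 N2 N3 f g hf hg hfg h1 h3 =>
    refine Bal.ext huv (f.baseChange T) (g.baseChange T) ?_ ?_ ?_ h1 h3
    · exact Module.Flat.lTensor_preserves_injective_linearMap f hf
    · exact LinearMap.lTensor_surjective T hg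
    · exact Module.Flat.lTensor_exact T hfg

end

end Pool.Agent.H661R3.CM
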