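import Mathlib

/-! Maximal Cohen–Macaulay modules, multiplicity and bounded Cohen–Macaulay type. -/

set_option autoImplicit false

namespace Pool.Agent.H661R3.CM

open IsLocalRing
open scoped ENNReal Nat

/-- `M` is a maximal Cohen–Macaulay module over the local ring `R`: it is finitely generated and there
is an `M`-regular sequence in the maximal ideal whose length is the Krull dimension of `R`
(equivalently `depth M = dim R`). -/
def IsMCM (R : Type*) [CommRing R] [IsLocalRing R] (M : Type*) [AddCommGroup M] [Module R M] : Prop :=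
  Module.Finite R M ∧ ∃ rs : List R, (∀ r ∈ rs, r ∈ maximalIdeal R) ∧
    (rs.length : WithBot ℕ∞) = ringKrullDim R ∧ RingTheory.Sequence.IsRegular M rs

/-- The Krull dimension as a natural number. -/
noncomputable def dimNat (R : Type*) [CommRing R] : ℕ := ((ringKrullDim R).unbotD 0).toNat

/-- The multiplicity `e(M) = lim d! ℓ(M / 𝔪^j M) / j^d`, `d = dim R` (for maximal Cohen–Macaulay
modules, the limit exists by Hilbert–Samuel; we take the upper limit). -/
noncomputable def mult (R : Type*) [CommRing R] [IsLocalRing R] (M : Type*) [AddCommGroup M]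
    [Module R M] : ℝ≥0∞ :=
  Filter.limsup (fun j : ℕ => ((dimNat R)! : ℝ≥0∞) *
    ((Module.length R (M ⧸ (maximalIdeal R ^ j • ⊤ : Submodule R M)) : ℕ∞) : ℝ≥0∞) /
      (j : ℝ≥0∞) ^ dimNat R) Filter.atTop

/-- `M` is indecomposable. -/
def Indec (R : Type*) [CommRing R] (M : Type*) [AddCommGroup M] [Module R M] : Prop :=
  Nontrivial M ∧ ∀ A B : Submodule R M, IsCompl A B → A = ⊥ ∨ B = ⊥

/-- bounded Cohen–Macaulay type. -/
def BoundedCMType (R : Type) [CommRing R] [IsLocalRing R] : Prop :=
  ∃ C : ℕ, ∀ (M : Type) [AddCommGroup M] [Module R M], IsMCM R M → Indec R M → mult R M ≤ C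

end Pool.Agent.H661R3.CM
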