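import Mathlib

/-! Gluing data over a principal ideal domain: one summand splits off. -/

set_option autoImplicit false

namespace Pool.Agent.H661R3.CM

/-- If `Γ ⊆ P × Q` is a saturated submodule over a PID meeting `P` and `Q` trivially and not zero, one
rank one piece splits off simultaneously. -/
theorem glue_split {C : Type*} [CommRing C] [IsDomain C] [IsPrincipalIdealRing C]
    {P Q : Type*} [AddCommGroup P] [Module C P] [Module.Free C P] [Module.Finite C P]
    [AddCommGroup Q] [Module C Q] [Module.Free C Q] [Module.Finite C Q]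
    (Γ : Submodule C (P × Q)) (h1 : ∀ p : P, (p, (0 : Q)) ∈ Γ → p = 0)
    (h2 : ∀ q : Q, ((0 : P), q) ∈ Γ → q = 0)
    (h3 : ∀ (c : C) (g : P × Q), c ≠ 0 → c • g ∈ Γ → g ∈ Γ) (h4 : Γ ≠ ⊥) :
    ∃ (p0 : P) (q0 : Q) (lam : P →ₗ[C] C) (mu : Q →ₗ[C] C) (a b : C),
      lam p0 = 1 ∧ mu q0 = 1 ∧ (a • p0, b • q0) ∈ Γ ∧ IsCoprime a b ∧
      ∀ g ∈ Γ, ∃ c : C, lam g.1 = c * a ∧ mu g.2 = c * b := by
  classical
  -- saturation of the image in P
  let GP : Submodule C P := Γ.map (LinearMap.fst C P Q)
  let P' : Submodule C P :=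
    { carrier := {p | ∃ d : C, d ≠ 0 ∧ d • p ∈ GP}
      add_mem' := by
        rintro p p' ⟨d, hd, hp⟩ ⟨d', hd', hp'⟩
        refine ⟨d * d', mul_ne_zero hd hd', ?_⟩
        have : (d * d') • (p + p') = d' • (d • p) + d • (d' • p') := by
          rw [smul_add, smul_smul, smul_smul, mul_comm d' d]
        rw [this]
        exact GP.add_mem (GP.smul_mem _ hp) (GP.smul_mem _ hp')
      zero_mem' := ⟨1, one_ne_zero, by simp⟩
      smul_mem' := by
        rintro c p ⟨d, hd, hp⟩
        refine ⟨d, hd, ?_⟩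
        rw [smul_comm]
        exact GP.smul_mem _ hp }
  have hGP' : GP ≤ P' := fun p hp => ⟨1, one_ne_zero, by simpa using hp⟩
  -- uniform denominator
  have hd : ∃ d : C, d ≠ 0 ∧ ∀ p ∈ P', d • p ∈ GP := by
    have hfg : P'.FG := IsNoetherian.noetherian P'
    obtain ⟨S, hS⟩ := hfg
    have key : ∀ S : Finset P, (∀ p ∈ S, p ∈ P') → ∃ d : C, d ≠ 0 ∧ ∀ p ∈ S, d • p ∈ GP := by
      intro S
      induction S using Finset.induction_on with
      | empty => intro _; exact ⟨1, one_ne_zero, by simp⟩
      | insert p S hpS ih =>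
        intro hall
        obtain ⟨d, hd, hdS⟩ := ih (fun q hq => hall q (Finset.mem_insert_of_mem hq))
        obtain ⟨e, he, hep⟩ := hall p (Finset.mem_insert_self _ _)
        refine ⟨d * e, mul_ne_zero hd he, ?_⟩
        intro q hq
        rcases Finset.mem_insert.1 hq with rfl | hq
        · rw [mul_smul]; exact GP.smul_mem _ hep
        · rw [mul_comm, mul_smul]; exact GP.smul_mem _ (hdS q hq)
    obtain ⟨d, hd, hdS⟩ := key S (fun p hp => by rw [← hS]; exact Submodule.subset_span hp)
    refine ⟨d, hd, ?_⟩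
    intro p hp
    have : P' ≤ GP.comap (LinearMap.lsmul C P d) := by
      rw [← hS, Submodule.span_le]
      intro q hq
      exact hdS q hq
    exact this hp
  obtain ⟨d, hd0, hdP⟩ := hd
  -- the map psi : P' → Q
  have hex : ∀ p : P', ∃ q : Q, (d • (p : P), q) ∈ Γ := by
    intro p
    obtain ⟨g, hg, hgp⟩ := hdP p p.2
    refine ⟨g.2, ?_⟩
    have : (d • (p : P), g.2) = g := by
      ext
      · exact hgp.symm
      · rfl
    rw [this]; exact hg
  choose ps hps using hex
  have huniq : ∀ (p : P) (q q' : Q), (p, q) ∈ Γ → (p, q') ∈ Γ → q = q' := by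
    intro p q q' hq hq'
    have := Γ.sub_mem hq hq'
    have h' : ((0 : P), q - q') ∈ Γ := by simpa using this
    exact sub_eq_zero.1 (h2 _ h')
  let psi : P' →ₗ[C] Q :=
    { toFun := ps
      map_add' := by
        intro p p'
        refine huniq (d • ((p + p' : P') : P)) _ _ (hps _) ?_
        have := Γ.add_mem (hps p) (hps p')
        simpa [smul_add] using this
      map_smul' := by
        intro c p
        refine huniq (d • ((c • p : P') : P)) _ _ (hps _) ?_
        have := Γ.smul_mem c (hps p)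
        simpa [smul_smul, mul_comm] using this }
  have hpsi_inj : Function.Injective psi := by
    rw [← LinearMap.ker_eq_bot, LinearMap.ker_eq_bot']
    intro p hp
    have h := hps p
    have hp' : ps p = 0 := hp
    rw [hp'] at h
    have := h1 _ h
    have h0 : (p : P) = 0 := by
      rcases smul_eq_zero.1 this with h | h
      · exact absurd h hd0
      · exact h
    exact Subtype.ext h0
  -- Smith normal form of the range of psi
  obtain ⟨n, snf⟩ := Submodule.smithNormalForm (Module.Free.chooseBasis C Q) (LinearMap.range psi)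
  let eqv : P' ≃ₗ[C] LinearMap.range psi := LinearEquiv.ofInjective psi hpsi_inj
  let e : Module.Basis (Fin n) C P' := snf.bN.map eqv.symm
  have he : ∀ i, psi (e i) = snf.a i • snf.bM (snf.f i) := by
    intro i
    have h1 : eqv (e i) = snf.bN i := by simp [e]
    have h2 : psi (e i) = (eqv (e i) : Q) := rfl
    rw [h2, h1]
    exact snf.snf i
  -- n > 0
  have hn : 0 < n := by
    rcases Nat.eq_zero_or_pos n with h0 | h0
    · exfalso
      apply h4
      rw [eq_bot_iff]
      rintro ⟨p, q⟩ hg
      subst h0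
      have hpP : p ∈ P' := hGP' ⟨(p, q), hg, rfl⟩
      have hp0 : (⟨p, hpP⟩ : P') = 0 := by
        have := e.sum_repr ⟨p, hpP⟩
        simpa using this.symm
      have hp0' : p = 0 := congrArg Subtype.val hp0
      subst hp0'
      have := h2 q hg
      subst this
      exact Submodule.zero_mem _
    · exact h0
  let j0 : Fin n := ⟨0, hn⟩
  -- gcd
  obtain ⟨g, hg⟩ : ∃ g : C, Ideal.span {g} = Ideal.span {d, snf.a j0} := by
    obtain ⟨g, hg⟩ := (IsPrincipalIdealRing.principal (Ideal.span {d, snf.a j0}))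
    exact ⟨g, hg.symm⟩
  have hgd : g ∣ d := by
    rw [← Ideal.mem_span_singleton, hg]; exact Ideal.subset_span (by simp)
  have hga : g ∣ snf.a j0 := by
    rw [← Ideal.mem_span_singleton, hg]; exact Ideal.subset_span (by simp)
  obtain ⟨a, ha⟩ := hgd
  obtain ⟨b, hb⟩ := hga
  have hg0 : g ≠ 0 := by
    rintro rfl
    apply hd0; rw [ha, zero_mul]
  have hcop : IsCoprime a b := by
    have : g ∈ Ideal.span {d, snf.a j0} := by rw [← hg]; exact Ideal.mem_span_singleton_self g
    obtain ⟨r, s, hrs⟩ := Ideal.mem_span_pair.1 this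
    refine ⟨r, s, ?_⟩
    apply mul_left_cancel₀ hg0
    rw [mul_one]
    calc g * (r * a + s * b) = r * (g * a) + s * (g * b) := by ring
      _ = r * d + s * snf.a j0 := by rw [← ha, ← hb]
      _ = g := hrs
  -- extension of the coordinate functional
  have hfree : Module.Free C (P ⧸ P') := by
    have : Module.IsTorsionFree C (P ⧸ P') := by
      rw [Module.isTorsionFree_iff_smul_eq_zero]
      intro c m hm
      induction m using Submodule.Quotient.induction_on with
      | H p =>
        by_cases hc : c = 0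
        · left; exact hc
        · right
          rw [← Submodule.Quotient.mk_smul, Submodule.Quotient.mk_eq_zero] at hm
          rw [Submodule.Quotient.mk_eq_zero]
          obtain ⟨e', he', hp⟩ := hm
          refine ⟨e' * c, mul_ne_zero he' hc, ?_⟩
          rwa [mul_smul]
    infer_instance
  obtain ⟨s, hs⟩ := Module.projective_lifting_property P'.mkQ (LinearMap.id) (Submodule.mkQ_surjective P')
  have hproj : ∀ p : P, p - s (P'.mkQ p) ∈ P' := by
    intro p
    have h5 : P'.mkQ (s (P'.mkQ p)) = P'.mkQ p := by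
      have := LinearMap.congr_fun hs (P'.mkQ p)
      simpa using this
    rw [← Submodule.Quotient.mk_eq_zero, Submodule.Quotient.mk_sub]
    exact sub_eq_zero.2 h5.symm
  let pr : P →ₗ[C] P' := LinearMap.codRestrict P' (LinearMap.id - s ∘ₗ P'.mkQ) hproj
  have hpr : ∀ p : P', pr (p : P) = p := by
    intro p
    apply Subtype.ext
    have h6 : P'.mkQ (p : P) = 0 := by
      rw [Submodule.mkQ_apply, Submodule.Quotient.mk_eq_zero]; exact p.2
    show (p : P) - s (P'.mkQ (p : P)) = p
    rw [h6, map_zero, sub_zero]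
  refine ⟨(e j0 : P), snf.bM (snf.f j0), (e.coord j0) ∘ₗ pr, snf.bM.coord (snf.f j0), a, b,
    ?_, ?_, ?_, hcop, ?_⟩
  · rw [LinearMap.comp_apply, hpr]; simp
  · simp
  · apply h3 g _ hg0
    have h7 := hps (e j0)
    have h8 : ps (e j0) = snf.a j0 • snf.bM (snf.f j0) := he j0
    rw [h8] at h7
    have h9 : g • (a • (e j0 : P), b • snf.bM (snf.f j0)) = (d • (e j0 : P), snf.a j0 • snf.bM (snf.f j0)) := by
      rw [Prod.smul_mk, smul_smul, smul_smul, ← ha, ← hb]
    rw [h9]; exact h7
  · rintro ⟨p, q⟩ hgΓ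
    have hpP : p ∈ P' := hGP' ⟨(p, q), hgΓ, rfl⟩
    have h10 : d • q = psi ⟨p, hpP⟩ := by
      refine huniq (d • p) _ _ ?_ (hps ⟨p, hpP⟩)
      exact Γ.smul_mem d hgΓ
    have h11 : psi ⟨p, hpP⟩ = ∑ i, (e.repr ⟨p, hpP⟩ i * snf.a i) • snf.bM (snf.f i) := by
      conv_lhs => rw [← e.sum_repr ⟨p, hpP⟩]
      rw [map_sum]
      refine Finset.sum_congr rfl (fun i _ => ?_)
      rw [map_smul, he i, smul_smul]
    have h12 : d * snf.bM.coord (snf.f j0) q = e.repr ⟨p, hpP⟩ j0 * snf.a j0 := by
      have := congrArg (snf.bM.coord (snf.f j0)) h10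
      rw [map_smul, h11, map_sum] at this
      rw [smul_eq_mul] at this
      rw [this]
      rw [Finset.sum_eq_single j0]
      · simp
      · intro i _ hij
        have : snf.f i ≠ snf.f j0 := fun h => hij (snf.f.injective h)
        simp [Module.Basis.coord_apply, this]
      · intro h; exact absurd (Finset.mem_univ _) h
    have h13 : a * snf.bM.coord (snf.f j0) q = e.repr ⟨p, hpP⟩ j0 * b := by
      apply mul_left_cancel₀ hg0
      calc g * (a * snf.bM.coord (snf.f j0) q) = (g * a) * snf.bM.coord (snf.f j0) q := by ring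
        _ = d * snf.bM.coord (snf.f j0) q := by rw [← ha]
        _ = e.repr ⟨p, hpP⟩ j0 * snf.a j0 := h12
        _ = e.repr ⟨p, hpP⟩ j0 * (g * b) := by rw [← hb]
        _ = g * (e.repr ⟨p, hpP⟩ j0 * b) := by ring
    have h14 : a ∣ e.repr ⟨p, hpP⟩ j0 := by
      apply hcop.dvd_of_dvd_mul_right
      exact ⟨_, h13.symm⟩
    obtain ⟨c, hc⟩ := h14
    have ha0 : a ≠ 0 := by
      rintro rfl
      apply hd0; rw [ha, mul_zero]
    refine ⟨c, ?_, ?_⟩
    · show (e.coord j0) (pr p) = c * a
      have : pr p = ⟨p, hpP⟩ := hpr ⟨p, hpP⟩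
      rw [this, Module.Basis.coord_apply, hc, mul_comm]
    · apply mul_left_cancel₀ ha0
      show a * snf.bM.coord (snf.f j0) q = a * (c * b)
      rw [h13, hc]; ring

end Pool.Agent.H661R3.CM
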