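import Mathlib

/-! A Herbrand type invariant for modules over a ring with `u v = 0`. -/

set_option autoImplicit false
set_option linter.unusedSectionVars false

namespace Pool.Agent.H661R3.CM

section
variable {T : Type*} [CommRing T]
variable {X : Type*} [AddCommGroup X] [Module T X]
variable {Y : Type*} [AddCommGroup Y] [Module T Y]

/-- length of `B / (A ∩ B)` -/
noncomputable def LL (A B : Submodule T X) : ℕ∞ := Module.length T (↥B ⧸ A.submoduleOf B)

theorem LL_eq_of_surj {Q : Type*} [AddCommGroup Q] [Module T Q] (A B : Submodule T X)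
    (f : B →ₗ[T] Q) (hf : Function.Surjective f) (hk : LinearMap.ker f = A.submoduleOf B) :
    LL A B = Module.length T Q := by
  unfold LL
  rw [← hk]
  exact (f.quotKerEquivOfSurjective hf).length_eq

theorem LL_add {A B C : Submodule T X} (hAB : A ≤ B) (hBC : B ≤ C) :
    LL A C = LL A B + LL B C := by
  unfold LL
  let i : ↥B →ₗ[T] ↥C := Submodule.inclusion hBC
  have h1 : A.submoduleOf B ≤ (A.submoduleOf C).comap i := fun b hb => hb
  have h2 : A.submoduleOf C ≤ (B.submoduleOf C).comap LinearMap.id := fun b hb => hAB hb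
  apply Module.length_eq_add_of_exact ((A.submoduleOf B).mapQ (A.submoduleOf C) i h1)
    ((A.submoduleOf C).mapQ (B.submoduleOf C) LinearMap.id h2)
  · rw [← LinearMap.ker_eq_bot, LinearMap.ker_eq_bot']
    intro m hm
    obtain ⟨b, rfl⟩ := Submodule.Quotient.mk_surjective _ m
    rw [Submodule.mapQ_apply, Submodule.Quotient.mk_eq_zero] at hm
    rw [Submodule.Quotient.mk_eq_zero]
    exact hm
  · intro m
    obtain ⟨b, rfl⟩ := Submodule.Quotient.mk_surjective _ m
    exact ⟨Submodule.Quotient.mk b, rfl⟩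
  · intro m
    obtain ⟨b, rfl⟩ := Submodule.Quotient.mk_surjective _ m
    rw [Submodule.mapQ_apply, Submodule.Quotient.mk_eq_zero]
    constructor
    · intro hb
      exact ⟨Submodule.Quotient.mk ⟨b, hb⟩, rfl⟩
    · rintro ⟨c, hc⟩
      obtain ⟨c, rfl⟩ := Submodule.Quotient.mk_surjective _ c
      rw [Submodule.mapQ_apply] at hc
      have hc' := (Submodule.Quotient.eq _).1 hc
      have e1 : ((i c - b : C) : X) ∈ A := hc'
      have e2 : ((c : X) - (b : X)) ∈ B := hAB e1
      have e3 : (b : X) ∈ B := by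
        have := B.sub_mem c.2 e2
        rwa [sub_sub_cancel] at this
      exact e3

theorem LL_map (f : X →ₗ[T] Y) (A B : Submodule T X) (hk : LinearMap.ker f ≤ A) :
    LL (A.map f) (B.map f) = LL A B := by
  symm
  let g : ↥B →ₗ[T] (↥(B.map f) ⧸ (A.map f).submoduleOf (B.map f)) :=
    (Submodule.mkQ _) ∘ₗ (f.restrict (p := B) (q := B.map f) (fun b hb => ⟨b, hb, rfl⟩))
  apply LL_eq_of_surj A B g
  · intro m
    obtain ⟨⟨_, b, hb, rfl⟩, rfl⟩ := Submodule.Quotient.mk_surjective _ m
    exact ⟨⟨b, hb⟩, rfl⟩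
  · ext b
    rw [LinearMap.mem_ker]
    show (Submodule.Quotient.mk (⟨f b, _⟩ : ↥(B.map f)) : (↥(B.map f) ⧸ (A.map f).submoduleOf (B.map f))) = 0 ↔ _
    rw [Submodule.Quotient.mk_eq_zero]
    constructor
    · rintro ⟨a, ha, hab⟩
      have h1 : f (a - b) = 0 := by
        rw [map_sub, sub_eq_zero]; exact hab
      have h2 : (a - b : X) ∈ A := hk h1
      have : (b : X) ∈ A := by
        have := A.sub_mem ha h2
        rwa [sub_sub_cancel] at this
      exact this
    · intro hb
      exact ⟨b, hb, rfl⟩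

theorem LL_comap (f : X →ₗ[T] Y) (hf : Function.Surjective f) (A B : Submodule T Y) :
    LL (A.comap f) (B.comap f) = LL A B := by
  have h := LL_map f (A.comap f) (B.comap f) (LinearMap.ker_le_comap f)
  rw [Submodule.map_comap_eq_of_surjective hf, Submodule.map_comap_eq_of_surjective hf] at h
  exact h.symm

theorem LL_sup (A B : Submodule T X) : LL A (A ⊔ B) = LL A B := by
  symm
  let g : ↥B →ₗ[T] (↥(A ⊔ B) ⧸ A.submoduleOf (A ⊔ B)) :=
    (Submodule.mkQ _) ∘ₗ (Submodule.inclusion (le_sup_right : B ≤ A ⊔ B))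
  apply LL_eq_of_surj A B g
  · intro m
    obtain ⟨⟨c, hc⟩, rfl⟩ := Submodule.Quotient.mk_surjective _ m
    obtain ⟨a, ha, b, hb, hab⟩ := Submodule.mem_sup.1 hc
    refine ⟨⟨b, hb⟩, ?_⟩
    show (Submodule.Quotient.mk (⟨b, _⟩ : ↥(A ⊔ B)) : (↥(A ⊔ B) ⧸ A.submoduleOf (A ⊔ B))) = _
    rw [Submodule.Quotient.eq]
    show b - c ∈ A
    rw [← hab, sub_add_eq_sub_sub, sub_sub_cancel_left] 
    exact A.neg_mem ha
  · ext b
    rw [LinearMap.mem_ker]
    show (Submodule.Quotient.mk (⟨b, _⟩ : ↥(A ⊔ B)) : (↥(A ⊔ B) ⧸ A.submoduleOf (A ⊔ B))) = 0 ↔ _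
    rw [Submodule.Quotient.mk_eq_zero]
    exact Iff.rfl

theorem LL_inf (A B : Submodule T X) : LL (A ⊓ B) B = LL A B := by
  unfold LL
  have : (A ⊓ B).submoduleOf B = A.submoduleOf B := by
    ext b
    constructor
    · intro h; exact h.1
    · intro h; exact ⟨h, b.2⟩
  rw [this]

/-- `len (ker q / p X)`. -/
noncomputable def hh (p q : T) (X : Type*) [AddCommGroup X] [Module T X] : ℕ∞ :=
  LL (LinearMap.range (LinearMap.lsmul T X p)) (Submodule.torsionBy T X q)

theorem hh_equiv (p q : T) (e : X ≃ₗ[T] Y) : hh p q X = hh p q Y := by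
  unfold hh
  have h := LL_map e.toLinearMap (LinearMap.range (LinearMap.lsmul T X p)) (Submodule.torsionBy T X q)
    (by rw [LinearEquiv.ker]; exact bot_le)
  rw [← h]
  congr 1
  · ext y
    constructor
    · rintro ⟨_, ⟨x, rfl⟩, rfl⟩
      exact ⟨e x, by simp⟩
    · rintro ⟨y', rfl⟩
      refine ⟨p • e.symm y', ⟨e.symm y', rfl⟩, ?_⟩
      simp
  · ext y
    constructor
    · rintro ⟨x, hx, rfl⟩
      have hx' : q • x = 0 := hx
      show q • e x = 0
      rw [← map_smul, hx', map_zero]
    · intro hy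
      have hy' : q • y = 0 := hy
      refine ⟨e.symm y, ?_, by simp⟩
      show q • e.symm y = 0
      rw [← map_smul, hy', map_zero]

/-- The three lengths attached to a submodule `K`. -/
theorem hh_split (p q : T) (hpq : p * q = 0) {X' X'' : Type*} [AddCommGroup X'] [Module T X']
    [AddCommGroup X''] [Module T X'']
    (f : X' →ₗ[T] X) (g : X →ₗ[T] X'') (hf : Function.Injective f) (hg : Function.Surjective g)
    (hfg : Function.Exact f g) :
    ∃ K : Submodule T X, K = LinearMap.range f ∧
    hh p q X' = LL (K.map (LinearMap.lsmul T X p)) (LinearMap.range (LinearMap.lsmul T X p) ⊓ K) +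
      LL (LinearMap.range (LinearMap.lsmul T X p) ⊓ K) (Submodule.torsionBy T X q ⊓ K) ∧
    hh p q X = LL (LinearMap.range (LinearMap.lsmul T X p) ⊓ K) (Submodule.torsionBy T X q ⊓ K) +
      LL (LinearMap.range (LinearMap.lsmul T X p) ⊔ (Submodule.torsionBy T X q ⊓ K))
        (Submodule.torsionBy T X q) ∧
    hh p q X'' = LL (LinearMap.range (LinearMap.lsmul T X p) ⊔ (Submodule.torsionBy T X q ⊓ K))
        (Submodule.torsionBy T X q) +
      LL (K.map (LinearMap.lsmul T X q)) (LinearMap.range (LinearMap.lsmul T X q) ⊓ K) := by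
  refine ⟨LinearMap.range f, rfl, ?_, ?_, ?_⟩
  · set K := LinearMap.range f with hK
    unfold hh
    rw [← LL_map f _ _ (by rw [LinearMap.ker_eq_bot.2 hf]; exact bot_le)]
    have e1 : (LinearMap.range (LinearMap.lsmul T X' p)).map f = K.map (LinearMap.lsmul T X p) := by
      ext y
      constructor
      · rintro ⟨_, ⟨x, rfl⟩, rfl⟩
        exact ⟨f x, ⟨x, rfl⟩, by simp⟩
      · rintro ⟨_, ⟨x, rfl⟩, rfl⟩
        exact ⟨p • x, ⟨x, rfl⟩, by simp⟩
    have e2 : (Submodule.torsionBy T X' q).map f = Submodule.torsionBy T X q ⊓ K := by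
      ext y
      constructor
      · rintro ⟨x, hx, rfl⟩
        have hx' : q • x = 0 := hx
        refine ⟨?_, x, rfl⟩
        show q • f x = 0
        rw [← map_smul, hx', map_zero]
      · rintro ⟨hy, x, rfl⟩
        refine ⟨x, ?_, rfl⟩
        have hy' : q • f x = 0 := hy
        rw [← map_smul] at hy'
        show q • x = 0
        exact hf (by rw [hy', map_zero])
    rw [e1, e2]
    apply LL_add
    · rintro _ ⟨k, hk, rfl⟩
      exact ⟨⟨k, rfl⟩, K.smul_mem _ hk⟩
    · rintro y ⟨⟨x, rfl⟩, hy⟩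
      refine ⟨?_, hy⟩
      show q • (p • x) = 0
      rw [smul_smul, mul_comm, hpq, zero_smul]
  · set K := LinearMap.range f with hK
    unfold hh
    have hle : LinearMap.range (LinearMap.lsmul T X p) ≤ Submodule.torsionBy T X q := by
      rintro _ ⟨x, rfl⟩
      show q • (p • x) = 0
      rw [smul_smul, mul_comm, hpq, zero_smul]
    rw [LL_add (B := LinearMap.range (LinearMap.lsmul T X p) ⊔ (Submodule.torsionBy T X q ⊓ K))
      le_sup_left (sup_le hle inf_le_left)]
    congr 1
    rw [LL_sup, ← LL_inf]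
    congr 1
    rw [← inf_assoc, inf_eq_left.2 hle]
  · set K := LinearMap.range f with hK
    unfold hh
    rw [← LL_comap g hg]
    have hker : ∀ y, g y = 0 ↔ y ∈ K := fun y => hfg y
    have e1 : (LinearMap.range (LinearMap.lsmul T X'' p)).comap g =
        LinearMap.range (LinearMap.lsmul T X p) ⊔ K := by
      ext y
      constructor
      · rintro ⟨z, hz⟩
        obtain ⟨x, rfl⟩ := hg z
        have hz' : p • g x = g y := hz
        rw [Submodule.mem_sup]
        refine ⟨p • x, ⟨x, rfl⟩, y - p • x, ?_, by abel⟩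
        rw [← hker, map_sub, map_smul, hz', sub_self]
      · intro hy
        obtain ⟨_, ⟨x, rfl⟩, k, hk, rfl⟩ := Submodule.mem_sup.1 hy
        refine ⟨g x, ?_⟩
        rw [map_add, (hker k).2 hk, add_zero]
        simp
    have e2 : (Submodule.torsionBy T X'' q).comap g = K.comap (LinearMap.lsmul T X q) := by
      ext y
      show q • g y = 0 ↔ q • y ∈ K
      rw [← map_smul, hker]
    rw [e1, e2]
    have hle : LinearMap.range (LinearMap.lsmul T X p) ≤ Submodule.torsionBy T X q := by
      rintro _ ⟨x, rfl⟩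
      show q • (p • x) = 0
      rw [smul_smul, mul_comm, hpq, zero_smul]
    rw [LL_add (B := Submodule.torsionBy T X q ⊔ K) (sup_le_sup_right hle K) (by
      apply sup_le
      · intro y hy
        have hy' : q • y = 0 := hy
        show q • y ∈ K
        rw [hy']; exact K.zero_mem
      · intro y hy
        exact K.smul_mem _ hy)]
    congr 1
    · have e3 : Submodule.torsionBy T X q ⊔ K =
          (LinearMap.range (LinearMap.lsmul T X p) ⊔ K) ⊔ Submodule.torsionBy T X q := by
        apply le_antisymm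
        · exact sup_le le_sup_right (le_sup_right.trans le_sup_left)
        · exact sup_le (sup_le (hle.trans le_sup_left) le_sup_right) le_sup_left
      rw [e3, LL_sup, ← LL_inf]
      congr 1
      rw [inf_comm (a := Submodule.torsionBy T X q) (b := K)]
      rw [← sup_inf_assoc_of_le K hle]
    · rw [← LL_map (LinearMap.lsmul T X q)]
      · congr 1
        · ext y
          constructor
          · rintro ⟨z, hz, rfl⟩
            obtain ⟨a, ha, k, hk, rfl⟩ := Submodule.mem_sup.1 hz
            refine ⟨k, hk, ?_⟩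
            have ha' : q • a = 0 := ha
            rw [map_add]
            show q • k = q • a + q • k
            rw [ha', zero_add]
          · rintro ⟨k, hk, rfl⟩
            exact ⟨k, (le_sup_right : K ≤ _) hk, rfl⟩
        · ext y
          constructor
          · rintro ⟨z, hz, rfl⟩
            exact ⟨⟨z, rfl⟩, hz⟩
          · rintro ⟨⟨z, rfl⟩, hz⟩
            exact ⟨z, hz, rfl⟩
      · intro y hy
        have : q • y = 0 := hy
        exact (le_sup_left : Submodule.torsionBy T X q ≤ _) this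

/-- balanced modules: `ker v / u X` and `ker u / v X` have the same finite length. -/
def Bal (u v : T) (X : Type*) [AddCommGroup X] [Module T X] : Prop :=
  hh u v X = hh v u X ∧ hh u v X ≠ ⊤

theorem Bal.equiv {u v : T} (e : X ≃ₗ[T] Y) (h : Bal u v X) : Bal u v Y := by
  unfold Bal at *
  rw [← hh_equiv u v e, ← hh_equiv v u e]; exact h

theorem Bal.ext {u v : T} (huv : u * v = 0) {X' X'' : Type*} [AddCommGroup X'] [Module T X']
    [AddCommGroup X''] [Module T X'']
    (f : X' →ₗ[T] X) (g : X →ₗ[T] X'') (hf : Function.Injective f) (hg : Function.Surjective g)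
    (hfg : Function.Exact f g) (h' : Bal u v X') (h'' : Bal u v X'') : Bal u v X := by
  obtain ⟨K, hK, a1, a2, a3⟩ := hh_split u v huv f g hf hg hfg
  obtain ⟨K2, hK2, b1, b2, b3⟩ := hh_split v u (by rw [mul_comm]; exact huv) f g hf hg hfg
  obtain rfl : K = K2 := by rw [hK, hK2]
  obtain ⟨c1, c2⟩ := h'
  obtain ⟨d1, d2⟩ := h''
  unfold Bal
  rw [a1, b1] at c1
  rw [a3, b3] at d1
  rw [a1] at c2
  rw [a3] at d2
  rw [a2, b2]
  generalize LL (K.map (LinearMap.lsmul T X u)) (LinearMap.range (LinearMap.lsmul T X u) ⊓ K) = pu at *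
  generalize LL (K.map (LinearMap.lsmul T X v)) (LinearMap.range (LinearMap.lsmul T X v) ⊓ K) = pv at *
  generalize LL (LinearMap.range (LinearMap.lsmul T X u) ⊓ K) (Submodule.torsionBy T X v ⊓ K) = q1 at *
  generalize LL (LinearMap.range (LinearMap.lsmul T X v) ⊓ K) (Submodule.torsionBy T X u ⊓ K) = q2 at *
  generalize LL (LinearMap.range (LinearMap.lsmul T X u) ⊔ (Submodule.torsionBy T X v ⊓ K))
        (Submodule.torsionBy T X v) = s1 at *
  generalize LL (LinearMap.range (LinearMap.lsmul T X v) ⊔ (Submodule.torsionBy T X u ⊓ K))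
        (Submodule.torsionBy T X u) = s2 at *
  -- everything is finite
  have hpu : pu ≠ ⊤ := fun h => c2 (by rw [h, top_add])
  have hq1 : q1 ≠ ⊤ := fun h => c2 (by rw [h, add_top])
  have hs1 : s1 ≠ ⊤ := fun h => d2 (by rw [h, top_add])
  have hpv : pv ≠ ⊤ := fun h => d2 (by rw [h, add_top])
  have hq2 : q2 ≠ ⊤ := fun h => c2 (by rw [c1, h, add_top])
  have hs2 : s2 ≠ ⊤ := fun h => d2 (by rw [d1, h, top_add])
  lift pu to ℕ using hpu
  lift pv to ℕ using hpv
  lift q1 to ℕ using hq1
  lift q2 to ℕ using hq2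
  lift s1 to ℕ using hs1
  lift s2 to ℕ using hs2
  constructor
  · norm_cast at *
    omega
  · exact_mod_cast ENat.natCast_ne_top (q1 + s1)

end

end Pool.Agent.H661R3.CM
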