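import Pool.Agent.H661R3.CM.Std
import Pool.Agent.H661R3.CM.BalR

/-! Indecomposability of the syzygy modules over `R`. -/

set_option autoImplicit false
set_option linter.unusedSectionVars false

namespace Pool.Agent.H661R3.CM

open IsLocalRing TensorProduct

section
variable {T : Type*} [CommRing T] [IsLocalRing T] [IsNoetherianRing T] {x u v : T}

theorem AInf.killuv (h : AInf T x u v) {N : Type*} [AddCommGroup N] [Module T N] [Module.Finite T N]
    (hx : ∀ n : N, x • n = 0 → n = 0)
    (hw : ∀ n n' : N, (u + v) • n = x • n' → ∃ n'' : N, n = x • n'')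
    (n : N) (hu : u • n = 0) (hv : v • n = 0) : n = 0 := by
  have hbot : (Submodule.torsionBy T N v ⊓ Submodule.torsionBy T N u) = ⊥ := by
    apply Submodule.eq_bot_of_le_smul_of_le_jacobson_bot (Ideal.span {x}) _
      (IsNoetherian.noetherian _)
    · rintro n ⟨hn1, hn2⟩
      have hn1' : v • n = 0 := hn1
      have hn2' : u • n = 0 := hn2
      obtain ⟨n2, hn⟩ := hw n 0 (by rw [add_smul, hn1', hn2']; simp)
      have hv2 : v • n2 = 0 := hx _ (by rw [smul_comm, ← hn, hn1'])
      have hu2 : u • n2 = 0 := hx _ (by rw [smul_comm, ← hn, hn2'])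
      rw [hn]
      exact Submodule.smul_mem_smul (Ideal.mem_span_singleton_self x) ⟨hv2, hu2⟩
    · rw [IsLocalRing.jacobson_eq_maximalIdeal _ bot_ne_top, Ideal.span_le]
      rintro _ rfl
      exact h.xmem
  have : n ∈ (Submodule.torsionBy T N v ⊓ Submodule.torsionBy T N u) := ⟨hv, hu⟩
  rw [hbot] at this
  simpa using this

theorem AInf2.exists_functional (h : AInf2 T x u v) {X : Type*} [AddCommGroup X] [Module T X]
    [Module.Finite T X]
    (hx : ∀ n : X, x • n = 0 → n = 0)
    (hw : ∀ n n' : X, (u + v) • n = x • n' → ∃ n'' : X, n = x • n'')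
    (hu : ∀ y : X, u • y = 0 → ∃ z, y = v • z) (hv : ∀ y : X, v • y = 0 → ∃ z, y = u • z)
    [Nontrivial X] : ∃ (lam : X →ₗ[T] T) (y : X), lam y = 1 := by
  classical
  have hfree := h.toAInf.free1 hx hw
  have hfin' : Module.Finite (T ⧸ Ideal.span {v}) (Submodule.torsionBy T X v) :=
    Module.Finite.of_restrictScalars_finite T _ _
  let bas := Module.Free.chooseBasis (T ⧸ Ideal.span {v}) (Submodule.torsionBy T X v)
  have he : ∀ i, ∃ z : X, (bas i : X) = u • z := fun i => hv _ (bas i).2
  choose e he using he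
  have hlift : ∀ c : Module.Free.ChooseBasisIndex (T ⧸ Ideal.span {v}) (Submodule.torsionBy T X v) → T,
      u • ∑ i, c i • e i =
      ((∑ i, (Ideal.Quotient.mk (Ideal.span {v}) (c i)) • bas i : Submodule.torsionBy T X v) : X) := by
    intro c
    rw [Finset.smul_sum, Submodule.coe_sum]
    refine Finset.sum_congr rfl (fun i _ => ?_)
    rw [smul_comm, ← he]
    rfl
  -- generation
  have hgen : Submodule.span T (Set.range e) = ⊤ := by
    rw [eq_top_iff]
    apply Submodule.le_of_le_smul_of_le_jacobson_bot (I := Ideal.span {v})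
      (Module.Finite.fg_top)
    · rw [IsLocalRing.jacobson_eq_maximalIdeal _ bot_ne_top, Ideal.span_le]
      rintro _ rfl
      exact h.vmem
    · intro y _
      let uy : Submodule.torsionBy T X v := ⟨u • y, by
        rw [Submodule.mem_torsionBy_iff, smul_smul, mul_comm, h.uv, zero_smul]⟩
      choose c hc using fun i => Ideal.Quotient.mk_surjective (bas.repr uy i)
      have h1 : u • (y - ∑ i, c i • e i) = 0 := by
        rw [smul_sub, hlift]
        have : ∑ i, (Ideal.Quotient.mk (Ideal.span {v}) (c i)) • bas i = uy := by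
          conv_rhs => rw [← bas.sum_repr uy]
          refine Finset.sum_congr rfl (fun i _ => ?_)
          rw [hc]
        rw [this]; exact sub_self _
      obtain ⟨z, hz⟩ := hu _ h1
      rw [Submodule.mem_sup]
      refine ⟨∑ i, c i • e i, ?_, y - ∑ i, c i • e i, ?_, by abel⟩
      · exact Submodule.sum_mem _ (fun i _ => Submodule.smul_mem _ _ (Submodule.subset_span ⟨i, rfl⟩))
      · rw [hz]
        exact Submodule.smul_mem_smul (Ideal.mem_span_singleton_self v) Submodule.mem_top
  have hgen' : ∀ y : X, ∃ c : _ → T, ∑ i, c i • e i = y := by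
    intro y
    have : y ∈ Submodule.span T (Set.range e) := by rw [hgen]; exact Submodule.mem_top
    exact (Submodule.mem_span_range_iff_exists_fun T).1 this
  -- base independence
  have hind1 : ∀ c : _ → T, ∑ i, c i • e i = 0 → ∀ i, v ∣ c i := by
    intro c hc i
    have h1 := hlift c
    rw [hc, smul_zero] at h1
    have h2 : (∑ i, (Ideal.Quotient.mk (Ideal.span {v}) (c i)) • bas i : Submodule.torsionBy T X v) = 0 :=
      Subtype.ext h1.symm
    have h3 := Fintype.linearIndependent_iff.1 bas.linearIndependent _ h2 i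
    rw [Ideal.Quotient.eq_zero_iff_mem, Ideal.mem_span_singleton] at h3
    exact h3
  have hvv : ∀ (k : ℕ) (y : X), v ^ (k + 1) • y = 0 → v • y = 0 := by
    intro k
    induction k with
    | zero => intro y hy; simpa using hy
    | succ k ih =>
      intro y hy
      rw [pow_succ, mul_smul] at hy
      have h1 := ih _ hy
      apply h.toAInf.killuv hx hw
      · rw [smul_smul, h.uv, zero_smul]
      · exact h1
  have hindk : ∀ (k : ℕ) (c : _ → T), ∑ i, c i • e i = 0 → ∀ i, v ^ (k + 1) ∣ c i := by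
    intro k
    induction k with
    | zero => intro c hc i; simpa using hind1 c hc i
    | succ k ih =>
      intro c hc
      choose s hs using ih c hc
      have h1 : v ^ (k + 1) • ∑ i, s i • e i = 0 := by
        rw [← hc, Finset.smul_sum]
        refine Finset.sum_congr rfl (fun i _ => ?_)
        rw [smul_smul, ← hs]
      obtain ⟨z, hz⟩ := hv _ (hvv k _ h1)
      obtain ⟨r, hr⟩ := hgen' z
      have h2 : ∑ i, (s i - u * r i) • e i = 0 := by
        have : ∑ i, (s i - u * r i) • e i = ∑ i, s i • e i - u • ∑ i, r i • e i := by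
          rw [Finset.smul_sum, ← Finset.sum_sub_distrib]
          refine Finset.sum_congr rfl (fun i _ => ?_)
          rw [sub_smul, mul_smul]
        rw [this, hr, hz, sub_self]
      intro i
      obtain ⟨t, ht⟩ := hind1 _ h2 i
      refine ⟨t, ?_⟩
      have h3 : s i = u * r i + v * t := by rw [← ht]; ring
      rw [hs i, h3, pow_succ, pow_succ]
      have := h.uv
      linear_combination (v ^ k * r i) * this
  have hind : LinearIndependent T e := by
    rw [Fintype.linearIndependent_iff]
    intro c hc i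
    have h1 : c i ∈ (⨅ k : ℕ, Ideal.span {v} ^ k : Ideal T) := by
      rw [Ideal.mem_iInf]
      intro k
      have := hindk k c hc i
      rw [Ideal.span_singleton_pow, Ideal.mem_span_singleton]
      exact (pow_dvd_pow v (Nat.le_succ k)).trans this
    rw [Ideal.iInf_pow_eq_bot_of_isLocalRing _ (span_v_ne_top h.vmem)] at h1
    simpa using h1
  let B := Module.Basis.mk hind (by rw [hgen])
  have hne : Nonempty (Module.Free.ChooseBasisIndex (T ⧸ Ideal.span {v}) (Submodule.torsionBy T X v)) := by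
    by_contra hcon
    rw [not_nonempty_iff] at hcon
    obtain ⟨y, hy⟩ := exists_ne (0 : X)
    obtain ⟨c, hc⟩ := hgen' y
    apply hy
    rw [← hc]
    simp
  obtain ⟨i0⟩ := hne
  exact ⟨B.coord i0, B i0, by simp⟩

theorem hh_zero_imp {p q : T} {X : Type*} [AddCommGroup X] [Module T X] (h : hh p q X = 0) :
    ∀ y : X, q • y = 0 → ∃ z, y = p • z := by
  intro y hy
  obtain ⟨z, hz⟩ := LL_eq_zero_imp h (show y ∈ Submodule.torsionBy T X q from hy)
  exact ⟨z, hz.symm⟩

theorem hh_eq_zero {p q : T} {X : Type*} [AddCommGroup X] [Module T X]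
    (h : ∀ y : X, q • y = 0 → ∃ z, y = p • z) : hh p q X = 0 := by
  apply LL_zero
  intro y hy
  obtain ⟨z, hz⟩ := h y hy
  exact ⟨z, hz.symm⟩

theorem AInf2.part_zero (h : AInf2 T x u v) {X : Type*} [AddCommGroup X] [Module T X]
    [Module.Finite T X]
    (hx : ∀ n : X, x • n = 0 → n = 0)
    (hw : ∀ n n' : X, (u + v) • n = x • n' → ∃ n'' : X, n = x • n'')
    (hu : ∀ y : X, u • y = 0 → ∃ z, y = v • z) (hbal : Bal u v X)
    (hfun : ∀ (lam : X →ₗ[T] T) (y : X), lam y ∈ maximalIdeal T) : Subsingleton X := by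
  by_contra hcon
  rw [not_subsingleton_iff_nontrivial] at hcon
  have h1 : hh v u X = 0 := hh_eq_zero hu
  have h2 : hh u v X = 0 := by rw [hbal.1, h1]
  obtain ⟨lam, y, hy⟩ := h.exists_functional hx hw hu (hh_zero_imp h2)
  have := hfun lam y
  rw [hy] at this
  exact (maximalIdeal.isMaximal T).ne_top ((Ideal.eq_top_iff_one _).2 this)

theorem AInf2.indec_core (h : AInf2 T x u v) {N X1 X2 : Type*} [AddCommGroup N] [Module T N]
    [AddCommGroup X1] [Module T X1] [Module.Finite T X1]
    [AddCommGroup X2] [Module T X2] [Module.Finite T X2]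
    (e : (X1 × X2) ≃ₗ[T] N)
    (hx : ∀ n : N, x • n = 0 → n = 0)
    (hw : ∀ n n' : N, (u + v) • n = x • n' → ∃ n'' : N, n = x • n'')
    (cyc : ∃ e0 : N, u • e0 = 0 ∧ ∀ b : N, u • b = 0 → ∃ (r : T) (z : N), b = r • e0 + v • z)
    (hfun : ∀ (lam : N →ₗ[T] T) (y : N), lam y ∈ maximalIdeal T)
    (bal1 : Bal u v X1) (bal2 : Bal u v X2) : Subsingleton X1 ∨ Subsingleton X2 := by
  have hx1 : ∀ n : X1, x • n = 0 → n = 0 := by
    intro n hn
    have := hx (e (n, 0)) (by rw [← map_smul]; simp [hn])
    have h2 : ((n, 0) : X1 × X2) = 0 := by simpa using this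
    exact congrArg Prod.fst h2
  have hx2 : ∀ n : X2, x • n = 0 → n = 0 := by
    intro n hn
    have := hx (e (0, n)) (by rw [← map_smul]; simp [hn])
    have h2 : ((0, n) : X1 × X2) = 0 := by simpa using this
    exact congrArg Prod.snd h2
  have hw1 : ∀ n n' : X1, (u + v) • n = x • n' → ∃ n'' : X1, n = x • n'' := by
    intro n n' hn
    obtain ⟨m, hm⟩ := hw (e (n, 0)) (e (n', 0)) (by
      rw [← map_smul, ← map_smul]; congr 1; ext <;> simp [hn])
    have h2 : (n, 0) = x • e.symm m := by
      apply e.injective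
      rw [map_smul, LinearEquiv.apply_symm_apply, hm]
    exact ⟨(e.symm m).1, congrArg Prod.fst h2⟩
  have hw2 : ∀ n n' : X2, (u + v) • n = x • n' → ∃ n'' : X2, n = x • n'' := by
    intro n n' hn
    obtain ⟨m, hm⟩ := hw (e (0, n)) (e (0, n')) (by
      rw [← map_smul, ← map_smul]; congr 1; ext <;> simp [hn])
    have h2 : (0, n) = x • e.symm m := by
      apply e.injective
      rw [map_smul, LinearEquiv.apply_symm_apply, hm]
    exact ⟨(e.symm m).2, congrArg Prod.snd h2⟩
  have hf1 : ∀ (lam : X1 →ₗ[T] T) (y : X1), lam y ∈ maximalIdeal T := by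
    intro lam y
    have := hfun ((lam ∘ₗ LinearMap.fst T X1 X2) ∘ₗ e.symm.toLinearMap) (e (y, 0))
    simpa using this
  have hf2 : ∀ (lam : X2 →ₗ[T] T) (y : X2), lam y ∈ maximalIdeal T := by
    intro lam y
    have := hfun ((lam ∘ₗ LinearMap.snd T X1 X2) ∘ₗ e.symm.toLinearMap) (e (0, y))
    simpa using this
  obtain ⟨e0, he0, hcyc⟩ := cyc
  obtain ⟨⟨e1, e2⟩, rfl⟩ := e.surjective e0
  have hue : u • e1 = 0 ∧ u • e2 = 0 := by
    rw [← map_smul] at he0
    have : u • ((e1, e2) : X1 × X2) = 0 := by simpa using he0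
    exact ⟨congrArg Prod.fst this, congrArg Prod.snd this⟩
  have hcyc' : ∀ b : X1 × X2, u • b = 0 → ∃ (r : T) (z : X1 × X2), b = r • (e1, e2) + v • z := by
    intro b hb
    obtain ⟨r, z, hz⟩ := hcyc (e b) (by rw [← map_smul, hb, map_zero])
    refine ⟨r, e.symm z, ?_⟩
    apply e.injective
    rw [map_add, map_smul, map_smul, LinearEquiv.apply_symm_apply, hz]
  obtain ⟨r, ⟨z1, z2⟩, hz⟩ := hcyc' (e1, 0) (by ext <;> simp [hue.1])
  have k1 : e1 = r • e1 + v • z1 := congrArg Prod.fst hz
  have k2 : 0 = r • e2 + v • z2 := congrArg Prod.snd hz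
  rcases IsLocalRing.isUnit_or_isUnit_of_add_one (a := r) (b := 1 - r) (by ring) with hr | hr
  · -- e2 ∈ v X2
    right
    obtain ⟨s, hs⟩ := hr.exists_left_inv
    have k3 : e2 = v • (-(s • z2)) := by
      have : s • (r • e2 + v • z2) = 0 := by rw [← k2, smul_zero]
      rw [smul_add, smul_smul, hs, one_smul, smul_comm s v] at this
      rw [smul_neg]
      exact eq_neg_of_add_eq_zero_left this
    apply h.part_zero hx2 hw2 _ bal2 hf2
    intro y hy
    obtain ⟨r', ⟨z1', z2'⟩, hz'⟩ := hcyc' (0, y) (by ext <;> simp [hy])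
    have k4 : y = r' • e2 + v • z2' := congrArg Prod.snd hz'
    refine ⟨r' • (-(s • z2)) + z2', ?_⟩
    rw [smul_add, smul_comm v r', ← k3, k4]
  · left
    obtain ⟨s, hs⟩ := hr.exists_left_inv
    have k3 : e1 = v • (s • z1) := by
      have k3' : (1 - r) • e1 = v • z1 := by
        rw [sub_smul, one_smul, sub_eq_iff_eq_add]
        rw [add_comm]; exact k1
      rw [smul_comm v s, ← k3', smul_smul, hs, one_smul]
    apply h.part_zero hx1 hw1 _ bal1 hf1
    intro y hy
    obtain ⟨r', ⟨z1', z2'⟩, hz'⟩ := hcyc' (y, 0) (by ext <;> simp [hy])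
    have k4 : y = r' • e1 + v • z1' := congrArg Prod.fst hz'
    refine ⟨r' • (s • z1) + z1', ?_⟩
    rw [smul_add, smul_comm v r', ← k3, k4]

end

end Pool.Agent.H661R3.CM
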