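import Pool.Agent.H661R3.CM.Indec

/-! Indecomposability over `R` of the syzygy modules. -/

set_option autoImplicit false
set_option linter.unusedSectionVars false

namespace Pool.Agent.H661R3.CM

open IsLocalRing TensorProduct

section
variable {R : Type*} [CommRing R] [IsLocalRing R] [IsNoetherianRing R]
variable {T : Type*} [CommRing T] [IsLocalRing T] [IsNoetherianRing T] [Algebra R T]
  [Module.Flat R T] {x u v : T}

/-- base change of the kernel of a row -/
noncomputable def krEquiv {ι : Type*} [Fintype ι] [DecidableEq ι] (g : ι → R) :
    T ⊗[R] (KR g) ≃ₗ[T] KR (fun i => algebraMap R T (g i)) :=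
  (LinearMap.tensorKerEquiv T T (Fintype.linearCombination R g)).trans
    ((TensorProduct.piScalarRight R T T ι).ofSubmodules _ _ (by
      have hsq : ∀ y : T ⊗[R] (ι → R),
          (AlgebraTensorModule.rid R T T)
            (AlgebraTensorModule.lTensor T T (Fintype.linearCombination R g) y) =
          Fintype.linearCombination T (fun i => algebraMap R T (g i))
            (TensorProduct.piScalarRight R T T ι y) := by
        intro y
        induction y with
        | zero => simp
        | add a b ha hb => rw [map_add, map_add, map_add, map_add, ha, hb]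
        | tmul t b =>
          rw [TensorProduct.piScalarRight_apply, TensorProduct.piScalarRightHom_tmul]
          simp only [AlgebraTensorModule.lTensor_tmul, AlgebraTensorModule.rid_tmul,
            Fintype.linearCombination_apply, Finset.sum_smul, smul_eq_mul]
          refine Finset.sum_congr rfl (fun i _ => ?_)
          rw [Algebra.smul_def, Algebra.smul_def, map_mul]
          ring
      ext z
      constructor
      · rintro ⟨y, hy, rfl⟩
        have hy' : AlgebraTensorModule.lTensor T T (Fintype.linearCombination R g) y = 0 := hy
        rw [LinearMap.mem_ker]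
        have := hsq y
        rw [hy', map_zero] at this
        exact this.symm
      · intro hz
        refine ⟨(TensorProduct.piScalarRight R T T ι).symm z, ?_, by simp⟩
        have hz' := LinearMap.mem_ker.1 hz
        have := hsq ((TensorProduct.piScalarRight R T T ι).symm z)
        rw [LinearEquiv.apply_symm_apply, hz'] at this
        have h0 : AlgebraTensorModule.lTensor T T (Fintype.linearCombination R g)
            ((TensorProduct.piScalarRight R T T ι).symm z) = 0 := by
          apply (AlgebraTensorModule.rid R T T).injective
          rw [this, map_zero]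
        exact h0))

theorem AInf2.kr_xreg (h : AInf2 T x u v) {ι : Type*} [Fintype ι] (g : ι → T) (n : KR g)
    (hn : x • n = 0) : n = 0 := by
  apply Subtype.ext
  funext i
  exact h.xreg _ (congrFun (congrArg Subtype.val hn) i)

theorem AInf2.kr_wreg (h : AInf2 T x u v) {ι : Type*} [Fintype ι] (g : ι → T) (n n' : KR g)
    (hn : (u + v) • n = x • n') : ∃ n'' : KR g, n = x • n'' := by
  have h1 : ∀ i, x ∣ (n : ι → T) i := by
    intro i
    apply h.wreg _ ((n' : ι → T) i)
    exact congrFun (congrArg Subtype.val hn) i
  choose c hc using h1
  have hcm : c ∈ KR g := by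
    rw [mem_KR]
    apply h.xreg
    have := (mem_KR _ _).1 n.2
    rw [← this, Finset.mul_sum]
    refine Finset.sum_congr rfl (fun i _ => ?_)
    rw [hc i]; ring
  exact ⟨⟨c, hcm⟩, Subtype.ext (funext hc)⟩

theorem indec_R (h : AInf2 T x u v)
    (hmax : (maximalIdeal R).map (algebraMap R T) = maximalIdeal T)
    (hreg : ∀ g : R, g ≠ 0 → ∀ t : T, algebraMap R T g * t = 0 → t = 0)
    (hprimes : ∀ p : Ideal R, p.IsPrime → (∃ g, p = Ideal.span {g}) ∨ p = maximalIdeal R)
    (n : ℕ) (hn : 1 ≤ n) (g : Option (Fin (n + 1)) → R)
    (G : Matrix (Option (Fin (n + 1))) (Option (Fin (n + 1))) T)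
    (hG : IsUnit G.det) (hg : ∀ i, algebraMap R T (g i) = ∑ j, G i j * gs x u v n j)
    (hu : u ∈ Ideal.span (Set.range (fun i => algebraMap R T (g i))))
    (A B : Submodule R (KR g)) (hAB : IsCompl A B) : A = ⊥ ∨ B = ⊥ := by
  classical
  have hloc : IsLocalHom (algebraMap R T) := by
    constructor
    intro a ha
    by_contra hcon
    have h1 : a ∈ maximalIdeal R := hcon
    have h2 : algebraMap R T a ∈ maximalIdeal T := by
      rw [← hmax]; exact Ideal.mem_map_of_mem _ h1
    exact h2 ha
  have hff : Module.FaithfullyFlat R T := Module.FaithfullyFlat.of_flat_of_isLocalHom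
  let e : ((T ⊗[R] A) × (T ⊗[R] B)) ≃ₗ[T] KR (fun i => algebraMap R T (g i)) :=
    ((TensorProduct.prodRight R T T A B).symm.trans
      ((Submodule.prodEquivOfIsCompl A B hAB).baseChange R T _ _)).trans (krEquiv g)
  have hbal := fun (M : Submodule R (KR g)) =>
    bal_tensor h.uv h.annu h.annv h.umem h.vmem hmax hreg hprimes M inferInstance
  have := h.indec_core e (h.kr_xreg _) (h.kr_wreg _) (h.toAInf.cyclic _ hu)
    (fun lam y => h.functional_mem' n hn _ G hG hg lam y) (hbal A) (hbal B)
  rcases this with h1 | h1
  · left
    have := Module.FaithfullyFlat.lTensor_reflects_triviality R T A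
    rw [eq_bot_iff]
    intro a ha
    have h2 := Subsingleton.elim (⟨a, ha⟩ : A) 0
    exact congrArg Subtype.val h2
  · right
    have := Module.FaithfullyFlat.lTensor_reflects_triviality R T B
    rw [eq_bot_iff]
    intro a ha
    have h2 := Subsingleton.elim (⟨a, ha⟩ : B) 0
    exact congrArg Subtype.val h2

end

end Pool.Agent.H661R3.CM
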