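import Pool.Agent.H661R3.CM.TMult
import Pool.Agent.H661R3.CM.IndecR

/-! The ring `R` does not have bounded Cohen–Macaulay type. -/

set_option autoImplicit false
set_option linter.unusedSectionVars false

namespace Pool.Agent.H661R3.CM

open IsLocalRing TensorProduct
open scoped ENNReal Nat Pointwise

section
variable {R : Type*} [CommRing R] [IsLocalRing R]

theorem LL_span_eq (c : R) (A B : Ideal R) (h : ∀ r, c * r ∈ A ↔ r ∈ B) :
    LL (X := R) A (Ideal.span {c}) = Module.length R (R ⧸ B) := by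
  rw [← LL_top (S := R) (X := R) B, ← LL_inf]
  have h1 := LL_map (LinearMap.lsmul R R c) B ⊤ (by
    intro r hr
    have : c * r = 0 := hr
    rw [← h, this]; exact A.zero_mem)
  rw [← h1]
  congr 1
  · ext y
    constructor
    · rintro ⟨hy1, hy2⟩
      obtain ⟨r, rfl⟩ := Ideal.mem_span_singleton.1 hy2
      exact ⟨r, (h r).1 hy1, rfl⟩
    · rintro ⟨r, hr, rfl⟩
      exact ⟨(h r).2 hr, Ideal.mem_span_singleton.2 ⟨r, rfl⟩⟩
  · ext y
    constructor
    · intro hy
      obtain ⟨r, rfl⟩ := Ideal.mem_span_singleton.1 hy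
      exact ⟨r, trivial, rfl⟩
    · rintro ⟨r, -, rfl⟩
      exact Ideal.mem_span_singleton.2 ⟨r, rfl⟩

theorem length_lower {x0 z0 : R} (hx0 : x0 ∈ maximalIdeal R) (hz0 : z0 ∈ maximalIdeal R)
    (hcolx : ∀ (i : ℕ) (r : R), x0 * r ∈ maximalIdeal R ^ (i + 1) → r ∈ maximalIdeal R ^ i)
    (hcolz : ∀ (i : ℕ) (r : R), z0 * r ∈ Ideal.span {x0} ⊔ maximalIdeal R ^ (i + 1) →
      r ∈ Ideal.span {x0} ⊔ maximalIdeal R ^ i) (i : ℕ) :
    ((i * (i + 1) : ℕ) : ℕ∞) ≤ 2 * Module.length R (R ⧸ maximalIdeal R ^ i) := by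
  have hmulx : ∀ (i : ℕ) (r : R), r ∈ maximalIdeal R ^ i → x0 * r ∈ maximalIdeal R ^ (i + 1) := by
    intro i r hr
    rw [pow_succ']; exact Ideal.mul_mem_mul hx0 hr
  have hb : ∀ i : ℕ, (i : ℕ∞) ≤ LL (X := R) (Ideal.span {x0} ⊔ maximalIdeal R ^ i) ⊤ := by
    intro i
    induction i with
    | zero => simp
    | succ i ih =>
      set A : Ideal R := Ideal.span {x0} ⊔ maximalIdeal R ^ (i + 1) with hA
      have h1 : LL (X := R) A ⊤ = LL (X := R) A (A ⊔ Ideal.span {z0}) + LL (X := R) (A ⊔ Ideal.span {z0}) ⊤ :=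
        LL_add le_sup_left le_top
      have h2 : LL (X := R) A (A ⊔ Ideal.span {z0}) =
          LL (X := R) (Ideal.span {x0} ⊔ maximalIdeal R ^ i) ⊤ := by
        rw [LL_sup, LL_span_eq z0 A (Ideal.span {x0} ⊔ maximalIdeal R ^ i), LL_top]
        intro r
        refine ⟨hcolz i r, ?_⟩
        intro hr
        obtain ⟨a, ha, b, hb, rfl⟩ := Submodule.mem_sup.1 hr
        rw [mul_add]
        apply Ideal.add_mem
        · exact (le_sup_left : Ideal.span {x0} ≤ A) (Ideal.mul_mem_left _ _ ha)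
        · apply (le_sup_right : maximalIdeal R ^ (i + 1) ≤ A)
          rw [pow_succ']; exact Ideal.mul_mem_mul hz0 hb
      have h3 : 1 ≤ LL (X := R) (A ⊔ Ideal.span {z0}) ⊤ := by
        rw [Order.one_le_iff_ne_zero]
        intro h0
        have := LL_eq_zero_imp h0
        have hle : A ⊔ Ideal.span {z0} ≤ maximalIdeal R := by
          apply sup_le (sup_le _ _)
          · rw [Ideal.span_le]; rintro _ rfl; exact hz0
          · rw [Ideal.span_le]; rintro _ rfl; exact hx0
          · exact Ideal.pow_le_self (by omega)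
        exact (maximalIdeal.isMaximal R).ne_top (top_le_iff.1 (this.trans hle))
      rw [h1, h2]
      push_cast
      exact add_le_add ih h3
  induction i with
  | zero => simp
  | succ i ih =>
    rw [← LL_top (S := R) (X := R)] at ih ⊢
    have h1 : LL (X := R) (maximalIdeal R ^ (i + 1)) ⊤ =
        LL (X := R) (maximalIdeal R ^ (i + 1)) (maximalIdeal R ^ (i + 1) ⊔ Ideal.span {x0}) +
        LL (X := R) (maximalIdeal R ^ (i + 1) ⊔ Ideal.span {x0}) ⊤ := LL_add le_sup_left le_top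
    have h2 : LL (X := R) (maximalIdeal R ^ (i + 1)) (maximalIdeal R ^ (i + 1) ⊔ Ideal.span {x0}) =
        LL (X := R) (maximalIdeal R ^ i) ⊤ := by
      rw [LL_sup, LL_span_eq x0 _ (maximalIdeal R ^ i), LL_top]
      intro r
      exact ⟨hcolx i r, hmulx i r⟩
    have h3 := hb (i + 1)
    rw [sup_comm] at h3
    have h4 : (((i + 1) * (i + 1 + 1) : ℕ) : ℕ∞) = ((i * (i + 1) : ℕ) : ℕ∞) + 2 * ((i + 1 : ℕ) : ℕ∞) := by
      push_cast; ring
    rw [h4, h1, h2]
    refine le_trans (add_le_add ih (mul_le_mul_right h3 2)) (le_of_eq ?_)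
    rw [mul_add (2 : ℕ∞)]

variable [IsDomain R]

/-- The element of the kernel with prescribed last coordinates. -/
theorem theta_mem (n : ℕ) (g : Option (Fin (n + 1)) → R) (x0 : R) (hg0 : g (some 0) = x0 ^ n)
    (c : Fin n → R) :
    (fun i : Option (Fin (n + 1)) => match i with
      | none => (0 : R)
      | some j => Fin.cases (-∑ k, c k * g (some k.succ)) (fun k => x0 ^ n * c k) j) ∈ KR g := by
  rw [mem_KR, Fintype.sum_option, Fin.sum_univ_succ]
  simp only [Fin.cases_zero, Fin.cases_succ, hg0]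
  have : ∑ k : Fin n, x0 ^ n * c k * g (some k.succ) = x0 ^ n * ∑ k : Fin n, c k * g (some k.succ) := by
    rw [Finset.mul_sum]
    exact Finset.sum_congr rfl (fun k _ => by ring)
  rw [this]; ring

theorem length_KR (n : ℕ) (g : Option (Fin (n + 1)) → R) (x0 : R) (hg0 : g (some 0) = x0 ^ n)
    (hcolx : ∀ (i : ℕ) (r : R), x0 * r ∈ maximalIdeal R ^ (i + 1) → r ∈ maximalIdeal R ^ i) (i : ℕ) :
    (n : ℕ∞) * Module.length R (R ⧸ maximalIdeal R ^ i) ≤
      Module.length R (KR g ⧸ (maximalIdeal R ^ (i + n) • ⊤ : Submodule R (KR g))) := by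
  classical
  set I := maximalIdeal R ^ (i + n) with hI
  have hcol : ∀ (n i : ℕ) (r : R), x0 ^ n * r ∈ maximalIdeal R ^ (i + n) → r ∈ maximalIdeal R ^ i := by
    intro n
    induction n with
    | zero => intro i r hr; simpa using hr
    | succ n ih =>
      intro i r hr
      have h1 : x0 ^ n * (x0 * r) ∈ maximalIdeal R ^ ((i + 1) + n) := by
        have e1 : x0 ^ n * (x0 * r) = x0 ^ (n + 1) * r := by ring
        have e2 : i + 1 + n = i + (n + 1) := by ring
        rw [e1, e2]; exact hr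
      exact hcolx _ _ (ih _ _ h1)
  let F0 : KR g →ₗ[R] (Fin n → R ⧸ I) :=
    LinearMap.pi (fun k => (Submodule.mkQ I) ∘ₗ (LinearMap.proj (some k.succ)) ∘ₗ (KR g).subtype)
  have hF0 : (I • ⊤ : Submodule R (KR g)) ≤ LinearMap.ker F0 := by
    rw [Submodule.smul_le]
    intro r hr m _
    rw [LinearMap.mem_ker]
    funext k
    show (Submodule.Quotient.mk (r * (m : Option (Fin (n + 1)) → R) (some k.succ)) : R ⧸ I) = 0
    rw [Submodule.Quotient.mk_eq_zero]
    exact Ideal.mul_mem_right _ _ hr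
  let F := Submodule.liftQ _ F0 hF0
  let P : (Fin n → R) →ₗ[R] (Fin n → R ⧸ I) :=
    LinearMap.pi (fun k => (Submodule.mkQ I) ∘ₗ (LinearMap.lsmul R R (x0 ^ n)) ∘ₗ (LinearMap.proj k))
  have hPF : LinearMap.range P ≤ LinearMap.range F := by
    rintro _ ⟨c, rfl⟩
    refine ⟨Submodule.Quotient.mk ⟨_, theta_mem n g x0 hg0 c⟩, ?_⟩
    rfl
  let Q : (Fin n → R) →ₗ[R] (Fin n → R ⧸ maximalIdeal R ^ i) :=
    LinearMap.pi (fun k => (Submodule.mkQ _) ∘ₗ (LinearMap.proj k))
  have hPQ : LinearMap.ker P ≤ LinearMap.ker Q := by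
    intro c hc
    rw [LinearMap.mem_ker] at hc ⊢
    funext k
    have h1 : (Submodule.Quotient.mk (x0 ^ n * c k) : R ⧸ I) = 0 := congrFun hc k
    rw [Submodule.Quotient.mk_eq_zero] at h1
    show (Submodule.Quotient.mk (c k) : R ⧸ maximalIdeal R ^ i) = 0
    rw [Submodule.Quotient.mk_eq_zero]
    exact hcol n i _ h1
  have hQ : Function.Surjective Q := by
    intro y
    choose c hc using fun k => Submodule.Quotient.mk_surjective _ (y k)
    exact ⟨c, funext hc⟩
  have l1 : Module.length R (LinearMap.range F) ≤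
      Module.length R (KR g ⧸ (I • ⊤ : Submodule R (KR g))) :=
    Module.length_le_of_surjective F.rangeRestrict F.surjective_rangeRestrict
  have l2 : Module.length R (LinearMap.range P) ≤ Module.length R (LinearMap.range F) :=
    Module.length_le_of_injective (Submodule.inclusion hPF) (Submodule.inclusion_injective hPF)
  have l3 : Module.length R ((Fin n → R) ⧸ LinearMap.ker P) = Module.length R (LinearMap.range P) :=
    (P.quotKerEquivRange).length_eq
  have l4 : Module.length R (Fin n → R ⧸ maximalIdeal R ^ i) ≤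
      Module.length R ((Fin n → R) ⧸ LinearMap.ker P) := by
    apply Module.length_le_of_surjective (Submodule.liftQ _ Q hPQ)
    intro y
    obtain ⟨c, rfl⟩ := hQ y
    exact ⟨Submodule.Quotient.mk c, rfl⟩
  have l5 : Module.length R (Fin n → R ⧸ maximalIdeal R ^ i) =
      (n : ℕ∞) * Module.length R (R ⧸ maximalIdeal R ^ i) := by
    rw [Module.length_pi_of_fintype]
    simp
  rw [← l5]
  exact l4.trans (l3.le.trans (l2.trans l1))

variable [IsNoetherianRing R]

theorem mcm_KR (n : ℕ) (hn : 1 ≤ n) (g : Option (Fin (n + 1)) → R) (x0 z0 : R)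
    (hg0 : g (some 0) = x0 ^ n)
    (hx0 : x0 ∈ maximalIdeal R) (hz0 : z0 ∈ maximalIdeal R) (hx00 : x0 ≠ 0)
    (hzx : ∀ r s : R, z0 * r = x0 * s → x0 ∣ r) (hdim : ringKrullDim R = 2) :
    IsMCM R (KR g) ∧ Nontrivial (KR g) := by
  have hnt : Nontrivial (KR g) := by
    refine ⟨⟨⟨_, theta_mem n g x0 hg0 (fun _ => 1)⟩, 0, ?_⟩⟩
    intro h0
    have h1 := congrFun (congrArg Subtype.val h0) (some (Fin.succ ⟨0, hn⟩))
    have h2 : x0 ^ n * 1 = 0 := h1
    rw [mul_one] at h2
    exact hx00 (pow_eq_zero_iff (by omega) |>.1 h2)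
  refine ⟨⟨inferInstance, [x0, z0], ?_, ?_, ?_⟩, hnt⟩
  · intro r hr
    rcases List.mem_pair.1 hr with rfl | rfl
    · exact hx0
    · exact hz0
  · rw [hdim]; rfl
  · apply RingTheory.Sequence.IsRegular.of_isWeaklyRegular_of_mem_maximalIdeal
    · intro r hr
      rcases List.mem_pair.1 hr with rfl | rfl
      · exact hx0
      · exact hz0
    · rw [weaklyRegular_pair_iff]
      constructor
      · intro b hb
        apply Subtype.ext
        funext i
        have : x0 * (b : Option (Fin (n + 1)) → R) i = 0 := congrFun (congrArg Subtype.val hb) i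
        exact (mul_eq_zero.1 this).resolve_left hx00
      · intro b b' hb
        have h1 : ∀ i, x0 ∣ (b : Option (Fin (n + 1)) → R) i := by
          intro i
          exact hzx _ _ (congrFun (congrArg Subtype.val hb) i)
        choose c hc using h1
        have hcm : c ∈ KR g := by
          rw [mem_KR]
          have h2 := (mem_KR _ _).1 b.2
          apply mul_left_cancel₀ hx00
          rw [mul_zero, ← h2, Finset.mul_sum]
          refine Finset.sum_congr rfl (fun i _ => ?_)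
          rw [hc i]; ring
        exact ⟨⟨c, hcm⟩, Subtype.ext (funext hc)⟩

end

/-- `R` does not have bounded Cohen–Macaulay type. -/
theorem not_bounded (R : Type) [CommRing R] [IsLocalRing R] [IsNoetherianRing R] [IsDomain R]
    {T : Type*} [CommRing T] [IsLocalRing T] [IsNoetherianRing T] [Algebra R T]
    [Module.Flat R T] {x u v : T} (h : AInf2 T x u v)
    (hmax : (maximalIdeal R).map (algebraMap R T) = maximalIdeal T)
    (hreg : ∀ g : R, g ≠ 0 → ∀ t : T, algebraMap R T g * t = 0 → t = 0)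
    (hprimes : ∀ p : Ideal R, p.IsPrime → (∃ g, p = Ideal.span {g}) ∨ p = maximalIdeal R)
    (hsurj : ∀ (t : T) (N : ℕ), ∃ r : R, algebraMap R T r - t ∈ maximalIdeal T ^ N)
    (x0 z0 : R) (hxx : algebraMap R T x0 = x)
    (hx0 : x0 ∈ maximalIdeal R) (hz0 : z0 ∈ maximalIdeal R) (hx00 : x0 ≠ 0)
    (hzx : ∀ r s : R, z0 * r = x0 * s → x0 ∣ r)
    (hcolx : ∀ (i : ℕ) (r : R), x0 * r ∈ maximalIdeal R ^ (i + 1) → r ∈ maximalIdeal R ^ i)
    (hcolz : ∀ (i : ℕ) (r : R), z0 * r ∈ Ideal.span {x0} ⊔ maximalIdeal R ^ (i + 1) →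
      r ∈ Ideal.span {x0} ⊔ maximalIdeal R ^ i)
    (hdim : ringKrullDim R = 2) : ¬ BoundedCMType R := by
  rintro ⟨C, hC⟩
  set n := 4 * (C + 1) with hn
  obtain ⟨g, G, hg0, hG, hg, hu⟩ := approx h.toAInf hsurj x0 hxx n
  obtain ⟨hmcm, hnt⟩ := mcm_KR n (by omega) g x0 z0 hg0 hx0 hz0 hx00 hzx hdim
  have hind : Indec R (KR g) :=
    ⟨hnt, fun A B hAB => indec_R h hmax hreg hprimes n (by omega) g G hG hg hu A B hAB⟩
  have hle := hC (KR g) hmcm hind
  have hd : dimNat R = 2 := by unfold dimNat; rw [hdim]; rfl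
  have hge : ((C + 1 : ℕ) : ℝ≥0∞) ≤ mult R (KR g) := by
    unfold mult
    rw [hd]
    refine le_trans ?_ (Filter.liminf_le_limsup)
    apply Filter.le_liminf_of_le
    · isBoundedDefault
    · filter_upwards [Filter.eventually_ge_atTop (2 * n), Filter.eventually_ge_atTop 1] with j hj hj1
      obtain ⟨i, rfl⟩ : ∃ i, j = i + n := ⟨j - n, by omega⟩
      have k1 := length_KR n g x0 hg0 hcolx i
      have k2 := length_lower hx0 hz0 hcolx hcolz i
      have k3 : (((C + 1) * (i + n) ^ 2 : ℕ) : ℕ∞) ≤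
          2 * Module.length R (KR g ⧸ (maximalIdeal R ^ (i + n) • ⊤ : Submodule R (KR g))) := by
        calc (((C + 1) * (i + n) ^ 2 : ℕ) : ℕ∞) ≤ ((n * (i * (i + 1)) : ℕ) : ℕ∞) := by
              apply Nat.cast_le.2
              have hin : n ≤ i := by omega
              have h5 : (i + n) ^ 2 ≤ 4 * (i * (i + 1)) := by nlinarith
              calc (C + 1) * (i + n) ^ 2 ≤ (C + 1) * (4 * (i * (i + 1))) := Nat.mul_le_mul_left _ h5
                _ = n * (i * (i + 1)) := by rw [hn]; ring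
          _ = (n : ℕ∞) * ((i * (i + 1) : ℕ) : ℕ∞) := by push_cast; ring
          _ ≤ (n : ℕ∞) * (2 * Module.length R (R ⧸ maximalIdeal R ^ i)) := mul_le_mul_right k2 _
          _ = 2 * ((n : ℕ∞) * Module.length R (R ⧸ maximalIdeal R ^ i)) := by ring
          _ ≤ _ := mul_le_mul_right k1 _
      have k4 := ENat.toENNReal_le.2 k3
      rw [ENNReal.le_div_iff_mul_le]
      · have e1 : ((2)! : ℕ) = 2 := rfl
        calc ((C + 1 : ℕ) : ℝ≥0∞) * ((i + n : ℕ) : ℝ≥0∞) ^ 2 =
            (((((C + 1) * (i + n) ^ 2 : ℕ) : ℕ∞) : ℝ≥0∞)) := by simp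
          _ ≤ _ := k4
          _ = _ := by rw [e1]; simp
      · left; positivity
      · left
        exact ENNReal.pow_ne_top (ENNReal.natCast_ne_top _)
  have := hge.trans hle
  have h7 : (C + 1 : ℕ) ≤ C := by exact_mod_cast this
  omega

end Pool.Agent.H661R3.CM
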