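import Mathlib

/-! The ring `k[[x,u,v]]/(uv)` in abstract form, and regular elements on modules of depth 2. -/

set_option autoImplicit false

namespace Pool.Agent.H661R3.CM

open IsLocalRing

/-- abstract `A_∞` surface ring: `T = k[[x,u,v]]/(uv)`. -/
structure AInf (T : Type*) [CommRing T] [IsLocalRing T] (x u v : T) : Prop where
  max : maximalIdeal T = Ideal.span {x, u, v}
  uv : u * v = 0
  annu : ∀ t, u * t = 0 → v ∣ t
  annv : ∀ t, v * t = 0 → u ∣ t
  xreg : ∀ t, x * t = 0 → t = 0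
  xu : ∀ t, u ∣ x * t → u ∣ t
  xv : ∀ t, v ∣ x * t → v ∣ t
  puv : (Ideal.span {u, v}).IsPrime
  pux : (Ideal.span {u, x}).IsPrime
  pvx : (Ideal.span {v, x}).IsPrime

theorem AInf.symm {T : Type*} [CommRing T] [IsLocalRing T] {x u v : T} (h : AInf T x u v) :
    AInf T x v u where
  max := by rw [h.max]; congr 1; ext t; simp only [Set.mem_insert_iff, Set.mem_singleton_iff]; tauto
  uv := by rw [mul_comm]; exact h.uv
  annu := h.annv
  annv := h.annu
  xreg := h.xreg
  xu := h.xv
  xv := h.xu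
  puv := by rw [Set.pair_comm]; exact h.puv
  pux := h.pvx
  pvx := h.pux

theorem exists_unit_mul_pow {D : Type*} [CommRing D] [IsLocalRing D] [IsNoetherianRing D] (p : D)
    (hp : maximalIdeal D = Ideal.span {p}) (b : D) (hb : b ≠ 0) :
    ∃ (k : ℕ) (c : D), IsUnit c ∧ b = c * p ^ k := by
  classical
  have hne : Ideal.span {p} ≠ ⊤ := by rw [← hp]; exact Ideal.IsPrime.ne_top'
  have hk : ∃ k : ℕ, b ∉ (Ideal.span {p}) ^ k := by
    by_contra hcon
    push Not at hcon
    have : b ∈ ⨅ i : ℕ, (Ideal.span {p}) ^ i := by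
      rw [Ideal.mem_iInf]; exact hcon
    rw [Ideal.iInf_pow_eq_bot_of_isLocalRing _ hne] at this
    exact hb (by simpa using this)
  have h0 : Nat.find hk ≠ 0 := by
    intro h
    have := Nat.find_spec hk
    rw [h] at this
    simp at this
  obtain ⟨k, hk'⟩ := Nat.exists_eq_succ_of_ne_zero h0
  have hmem : b ∈ (Ideal.span {p}) ^ k := by
    by_contra hcon
    have := Nat.find_min' hk hcon
    omega
  rw [Ideal.span_singleton_pow, Ideal.mem_span_singleton] at hmem
  obtain ⟨c, hc⟩ := hmem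
  refine ⟨k, c, ?_, by rw [hc, mul_comm]⟩
  by_contra hcu
  have : c ∈ maximalIdeal D := hcu
  rw [hp, Ideal.mem_span_singleton] at this
  obtain ⟨e, he⟩ := this
  have hnot := Nat.find_spec hk
  rw [hk', Ideal.span_singleton_pow, Ideal.mem_span_singleton] at hnot
  apply hnot
  exact ⟨e, by rw [hc, he, pow_succ]; ring⟩

section
variable {T : Type*} [CommRing T] [IsLocalRing T] [IsNoetherianRing T] {x u v : T}

omit [IsNoetherianRing T] in
theorem quot_local (I : Ideal T) (hI : I ≠ ⊤) : IsLocalRing (T ⧸ I) := by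
  have : Nontrivial (T ⧸ I) := Ideal.Quotient.nontrivial_iff.2 hI
  exact IsLocalRing.of_surjective' (Ideal.Quotient.mk I) Ideal.Quotient.mk_surjective

omit [IsNoetherianRing T] in
theorem max_quot (I : Ideal T) (hI : I ≠ ⊤) [IsLocalRing (T ⧸ I)] :
    maximalIdeal (T ⧸ I) = (maximalIdeal T).map (Ideal.Quotient.mk I) := by
  symm
  have hmk : Function.Surjective (Ideal.Quotient.mk I) := Ideal.Quotient.mk_surjective
  apply IsLocalRing.eq_maximalIdeal
  refine (Ideal.map_eq_top_or_isMaximal_of_surjective _ hmk (maximalIdeal.isMaximal T)).resolve_left ?_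
  intro htop
  have hle : I ≤ maximalIdeal T := IsLocalRing.le_maximalIdeal hI
  have := congrArg (Ideal.comap (Ideal.Quotient.mk I)) htop
  rw [Ideal.comap_map_of_surjective _ hmk, Ideal.comap_top] at this
  rw [← RingHom.ker_eq_comap_bot, Ideal.mk_ker, sup_eq_left.2 hle] at this
  exact (maximalIdeal.isMaximal T).ne_top this

/-- some power of `v` is a combination of `a` and an element of `(u,x)` when `a ∉ (u,x)`. -/
theorem AInf.pow_mem (h : AInf T x u v) (a : T) (ha : a ∉ Ideal.span {u, x}) :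
    ∃ (k : ℕ) (c : T), v ^ k - c * a ∈ Ideal.span {u, x} := by
  have := h.pux
  let D := T ⧸ Ideal.span {u, x}
  have hmk : Function.Surjective (Ideal.Quotient.mk (Ideal.span {u, x})) := Ideal.Quotient.mk_surjective
  have : IsLocalRing D := quot_local _ h.pux.ne_top
  have hD : maximalIdeal D = Ideal.span {Ideal.Quotient.mk (Ideal.span {u, x}) v} := by
    have h1 : maximalIdeal D = (maximalIdeal T).map (Ideal.Quotient.mk (Ideal.span {u, x})) :=
      max_quot _ h.pux.ne_top
    rw [h1, h.max, Ideal.map_span]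
    apply le_antisymm
    · rw [Ideal.span_le]
      rintro _ ⟨t, ht, rfl⟩
      rcases ht with rfl | rfl | rfl
      · have : Ideal.Quotient.mk (Ideal.span {u, t}) t = 0 :=
          Ideal.Quotient.eq_zero_iff_mem.2 (Ideal.subset_span (by simp))
        rw [this]; exact Ideal.zero_mem _
      · have : Ideal.Quotient.mk (Ideal.span {t, x}) t = 0 :=
          Ideal.Quotient.eq_zero_iff_mem.2 (Ideal.subset_span (by simp))
        rw [this]; exact Ideal.zero_mem _
      · exact Ideal.subset_span (by simp)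
    · rw [Ideal.span_le]
      rintro _ rfl
      exact Ideal.subset_span ⟨v, by simp, rfl⟩
  have ha' : Ideal.Quotient.mk (Ideal.span {u, x}) a ≠ 0 := by
    rw [Ne, Ideal.Quotient.eq_zero_iff_mem]; exact ha
  obtain ⟨k, c, hc, hac⟩ := exists_unit_mul_pow _ hD _ ha'
  obtain ⟨d, hd⟩ := hc.exists_left_inv
  obtain ⟨c', rfl⟩ := hmk c
  obtain ⟨d', rfl⟩ := hmk d
  refine ⟨k, d', ?_⟩
  rw [← Ideal.Quotient.eq_zero_iff_mem]
  rw [map_sub, map_mul, hac, map_pow, ← mul_assoc, hd, one_mul, sub_self]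

variable {N : Type*} [AddCommGroup N] [Module T N] [Module.Finite T N]

/-- elements killed by `(u,x)` vanish. -/
theorem AInf.kill (h : AInf T x u v) (a b : T) (ha : a ∈ maximalIdeal T) (hb : b ∈ maximalIdeal T)
    (hra : ∀ n : N, a • n = 0 → n = 0) (hrb : ∀ n n' : N, b • n = a • n' → ∃ n'', n = a • n'')
    (y : N) (hu : u • y = 0) (hx : x • y = 0) : y = 0 := by
  classical
  by_contra hy
  have hmax := h.max
  -- a ∉ (u,x)
  have haq : a ∉ Ideal.span {u, x} := by
    intro hmem
    obtain ⟨r, s, hrs⟩ := Ideal.mem_span_pair.1 hmem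
    apply hy
    apply hra
    rw [← hrs, add_smul, mul_smul, mul_smul, hu, hx, smul_zero, smul_zero, add_zero]
  obtain ⟨K, c, hK⟩ := h.pow_mem a haq
  obtain ⟨r, s, hrs⟩ := Ideal.mem_span_pair.1 hK
  -- powers of a
  have hne : Ideal.span {a} ≠ ⊤ := by
    intro htop
    rw [Ideal.span_singleton_eq_top] at htop
    exact ha htop
  have hkrull := Ideal.iInf_pow_smul_eq_bot_of_isLocalRing (M := N) (Ideal.span {a}) hne
  have hk : ∃ k : ℕ, ¬ ∃ n : N, y = a ^ k • n := by
    by_contra hcon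
    push Not at hcon
    have : y ∈ (⨅ i : ℕ, Ideal.span {a} ^ i • ⊤ : Submodule T N) := by
      rw [Submodule.mem_iInf]
      intro i
      obtain ⟨n, hn⟩ := hcon i
      rw [hn]
      exact Submodule.smul_mem_smul (Ideal.pow_mem_pow (Ideal.mem_span_singleton_self a) i) trivial
    rw [hkrull] at this
    exact hy (by simpa using this)
  have h0 : Nat.find hk ≠ 0 := by
    intro h0
    have := Nat.find_spec hk
    rw [h0] at this
    exact this ⟨y, by simp⟩
  obtain ⟨k, hk'⟩ := Nat.exists_eq_succ_of_ne_zero h0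
  obtain ⟨y', hy'⟩ : ∃ n : N, y = a ^ k • n := by
    by_contra hcon
    have := Nat.find_min' hk hcon
    omega
  have hapow : ∀ (j : ℕ) (n : N), a ^ j • n = 0 → n = 0 := by
    intro j
    induction j with
    | zero => intro n hn; simpa using hn
    | succ j ih => intro n hn; rw [pow_succ, mul_smul] at hn; exact hra _ (ih _ hn)
  have hu' : u • y' = 0 := by
    apply hapow k; rw [smul_comm, ← hy']; exact hu
  have hx' : x • y' = 0 := by
    apply hapow k; rw [smul_comm, ← hy']; exact hx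
  have hy'a : ¬ ∃ n : N, y' = a • n := by
    rintro ⟨n, hn⟩
    have := Nat.find_spec hk
    rw [hk'] at this
    apply this
    exact ⟨n, by rw [hy', hn, pow_succ, mul_smul]⟩
  -- descend
  obtain ⟨b1, hb1⟩ : ∃ b1 : T, b - b1 * v ∈ Ideal.span {u, x} := by
    rw [hmax] at hb
    obtain ⟨p, z, hz, hb'⟩ := Ideal.mem_span_insert.1 hb
    obtain ⟨q, w, hzw⟩ := Ideal.mem_span_pair.1 hz
    refine ⟨w, ?_⟩
    have : b - w * v = q * u + p * x := by rw [hb', ← hzw]; ring
    rw [this]
    exact Ideal.mem_span_pair.2 ⟨q, p, rfl⟩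
  obtain ⟨r1, s1, hrs1⟩ := Ideal.mem_span_pair.1 hb1
  have hdesc : ∀ j : ℕ, (∃ n : N, v ^ j • y' = a • n) → ∃ n : N, y' = a • n := by
    intro j
    induction j with
    | zero => rintro ⟨n, hn⟩; exact ⟨n, by simpa using hn⟩
    | succ j ih =>
      rintro ⟨n, hn⟩
      apply ih
      apply hrb (v ^ j • y') (b1 • n)
      have e1 : b = b1 * v + (r1 * u + s1 * x) := by rw [hrs1]; ring
      have e2 : (r1 * u + s1 * x) • (v ^ j • y') = 0 := by
        rw [add_smul, mul_smul, mul_smul, smul_comm u, smul_comm x, hu', hx']; simp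
      rw [e1, add_smul, e2, add_zero, mul_smul, ← mul_smul v, ← pow_succ', hn, smul_comm]
  apply hy'a
  apply hdesc K
  have e3 : v ^ K = c * a + (r * u + s * x) := by rw [hrs]; ring
  refine ⟨c • y', ?_⟩
  rw [e3, add_smul, add_smul, mul_smul, mul_smul, mul_smul, hu', hx', smul_comm]; simp

theorem AInf.xregular (h : AInf T x u v) (a b : T) (ha : a ∈ maximalIdeal T)
    (hb : b ∈ maximalIdeal T)
    (hra : ∀ n : N, a • n = 0 → n = 0) (hrb : ∀ n n' : N, b • n = a • n' → ∃ n'', n = a • n'')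
    (y : N) (hx : x • y = 0) : y = 0 := by
  have h1 : u • y = 0 := by
    apply h.symm.kill a b ha hb hra hrb
    · rw [smul_smul, mul_comm, h.uv, zero_smul]
    · rw [smul_comm, hx, smul_zero]
  exact h.kill a b ha hb hra hrb y h1 hx

theorem AInf.soc (h : AInf T x u v) (a b : T) (ha : a ∈ maximalIdeal T)
    (hb : b ∈ maximalIdeal T)
    (hra : ∀ n : N, a • n = 0 → n = 0) (hrb : ∀ n n' : N, b • n = a • n' → ∃ n'', n = a • n'')
    (y : N) (hs : ∀ s ∈ maximalIdeal T, ∃ n : N, s • y = x • n) : ∃ n : N, y = x • n := by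
  have hxr := fun y => h.xregular a b ha hb hra hrb y
  obtain ⟨y1, hy1⟩ := hs a ha
  obtain ⟨yb, hyb⟩ := hs b hb
  have h2 : b • y1 = a • yb := by
    have : x • (b • y1 - a • yb) = 0 := by
      rw [smul_sub, smul_comm x b, ← hy1, smul_comm x a, ← hyb, smul_comm b a, sub_self]
    exact sub_eq_zero.1 (hxr _ this)
  obtain ⟨y2, hy2⟩ := hrb _ _ h2
  refine ⟨y2, ?_⟩
  have : a • (y - x • y2) = 0 := by
    rw [smul_sub, hy1, hy2, smul_comm, sub_self]
  exact sub_eq_zero.1 (hra _ this)

theorem AInf.wregular (h : AInf T x u v) (a b : T) (ha : a ∈ maximalIdeal T)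
    (hb : b ∈ maximalIdeal T)
    (hra : ∀ n : N, a • n = 0 → n = 0) (hrb : ∀ n n' : N, b • n = a • n' → ∃ n'', n = a • n'')
    (n n' : N) (hw : (u + v) • n = x • n') : ∃ n'' : N, n = x • n'' := by
  have hsoc := fun y => h.soc a b ha hb hra hrb y
  have gen : ∀ y : N, (∃ n : N, x • y = x • n) → (∃ n : N, u • y = x • n) → (∃ n : N, v • y = x • n) →
      ∃ n : N, y = x • n := by
    rintro y ⟨n1, h1⟩ ⟨n2, h2⟩ ⟨n3, h3⟩
    apply hsoc
    intro s hs
    rw [h.max] at hs
    obtain ⟨p, z, hz, hb'⟩ := Ideal.mem_span_insert.1 hs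
    obtain ⟨q, w, hzw⟩ := Ideal.mem_span_pair.1 hz
    refine ⟨p • n1 + (q • n2 + w • n3), ?_⟩
    rw [hb', ← hzw, add_smul, add_smul, mul_smul, mul_smul, mul_smul, h1, h2, h3, smul_add, smul_add,
      smul_comm p x, smul_comm q x, smul_comm w x]
  have hu1 : ∃ m : N, u • n = x • m := by
    apply gen
    · exact ⟨u • n, rfl⟩
    · refine ⟨u • n', ?_⟩
      have : u • (u • n) = u • ((u + v) • n) := by
        rw [add_smul, smul_add, smul_smul u v, h.uv, zero_smul, add_zero]
      rw [this, hw, smul_comm]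
    · refine ⟨0, ?_⟩
      rw [smul_smul, mul_comm, h.uv, zero_smul, smul_zero]
  have hv1 : ∃ m : N, v • n = x • m := by
    apply gen
    · exact ⟨v • n, rfl⟩
    · refine ⟨0, ?_⟩
      rw [smul_smul, h.uv, zero_smul, smul_zero]
    · refine ⟨v • n', ?_⟩
      have : v • (v • n) = v • ((u + v) • n) := by
        rw [add_smul, smul_add, smul_smul v u, mul_comm v u, h.uv, zero_smul, zero_add]
      rw [this, hw, smul_comm]
  exact gen n ⟨n, rfl⟩ hu1 hv1

end

end Pool.Agent.H661R3.CM
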