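import Pool.Agent.H661R3.CM.Free
import Pool.Agent.H661R3.CM.Glue

/-! Indecomposable modules of depth two over the abstract `A_∞` surface ring are generated by two
elements. -/

set_option autoImplicit false
set_option linter.unusedSectionVars false

namespace Pool.Agent.H661R3.CM

open IsLocalRing
open scoped Pointwise

section
variable {T : Type*} [CommRing T] [IsLocalRing T] [IsNoetherianRing T] {x u v : T}
variable {N : Type*} [AddCommGroup N] [Module T N] [Module.Finite T N]

theorem memI (I : Ideal T) (hI : I = Ideal.span {u, v}) (m : Submodule.torsionBy T N v) :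
    m ∈ (I • ⊤ : Submodule T (Submodule.torsionBy T N v)) ↔
      ∃ m' : Submodule.torsionBy T N v, m = u • m' := by
  constructor
  · intro hm
    refine Submodule.smul_induction_on hm ?_ ?_
    · intro r hr n _
      rw [hI] at hr
      obtain ⟨a, b, rfl⟩ := Ideal.mem_span_pair.1 hr
      refine ⟨a • n, ?_⟩
      rw [add_smul, mul_smul b, Submodule.smul_torsionBy, smul_zero, add_zero, mul_comm, mul_smul]
    · rintro m1 m2 ⟨a, rfl⟩ ⟨b, rfl⟩
      exact ⟨a + b, by rw [smul_add]⟩
  · rintro ⟨m', rfl⟩
    have hu : u ∈ I := by rw [hI]; exact Ideal.subset_span (by simp)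
    exact Submodule.smul_mem_smul hu Submodule.mem_top

theorem AInf.maxC (h : AInf T x u v) (I : Ideal T) (hI : I = Ideal.span {u, v}) [IsLocalRing (T ⧸ I)] :
    maximalIdeal (T ⧸ I) = Ideal.span {Ideal.Quotient.mk I x} := by
  have hne : I ≠ ⊤ := by rw [hI]; exact h.puv.ne_top
  rw [max_quot _ hne, h.max, Ideal.map_span]
  apply le_antisymm
  · rw [Ideal.span_le]
    rintro _ ⟨t, ht, rfl⟩
    rcases ht with rfl | rfl | rfl
    · exact Ideal.subset_span rfl
    · have : Ideal.Quotient.mk I t = 0 :=
        Ideal.Quotient.eq_zero_iff_mem.2 (by rw [hI]; exact Ideal.subset_span (by simp))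
      rw [this]; exact Ideal.zero_mem _
    · have : Ideal.Quotient.mk I t = 0 :=
        Ideal.Quotient.eq_zero_iff_mem.2 (by rw [hI]; exact Ideal.subset_span (by simp))
      rw [this]; exact Ideal.zero_mem _
  · rw [Ideal.span_le]
    rintro _ rfl
    exact Ideal.subset_span ⟨x, by simp, rfl⟩

theorem AInf.domC (h : AInf T x u v) (I : Ideal T) (hI : I = Ideal.span {u, v}) : IsDomain (T ⧸ I) := by
  rw [Ideal.Quotient.isDomain_iff_prime, hI]; exact h.puv

theorem AInf.freeX (h : AInf T x u v)
    (hx : ∀ n : N, x • n = 0 → n = 0)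
    (hw : ∀ n n' : N, (u + v) • n = x • n' → ∃ n'' : N, n = x • n'')
    (I : Ideal T) (hI : I = Ideal.span {u, v}) :
    Module.Free (T ⧸ I)
      (Submodule.torsionBy T N v ⧸ (I • ⊤ : Submodule T (Submodule.torsionBy T N v))) := by
  have hne : I ≠ ⊤ := by rw [hI]; exact h.puv.ne_top
  have h1 := quot_local _ hne
  have h2 := h.domC I hI
  have h3 := h.maxC I hI
  have h4 := pir_of_principal _ h3
  have h5 : Module.Finite (T ⧸ I)
      (Submodule.torsionBy T N v ⧸ (I • ⊤ : Submodule T (Submodule.torsionBy T N v))) :=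
    Module.Finite.of_restrictScalars_finite T _ _
  have h6 : Module.IsTorsionFree (T ⧸ I)
      (Submodule.torsionBy T N v ⧸ (I • ⊤ : Submodule T (Submodule.torsionBy T N v))) := by
    apply torsionFree_of_regular _ h3
    intro z hz
    obtain ⟨m, rfl⟩ := Submodule.Quotient.mk_surjective _ z
    have hz' : Submodule.Quotient.mk (p := (I • ⊤ : Submodule T (Submodule.torsionBy T N v)))
        (x • m) = 0 := hz
    rw [Submodule.Quotient.mk_eq_zero, memI I hI] at hz'
    obtain ⟨m', hm'⟩ := hz'
    have e1 : x • (m : N) = u • (m' : N) := congrArg Subtype.val hm'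
    have e2 : v • (m' : N) = 0 := m'.2
    obtain ⟨n2, hn2⟩ := hw (m' : N) (m : N) (by rw [add_smul, e2, add_zero, e1])
    have e3 : v • n2 = 0 := by
      apply hx
      rw [smul_comm, ← hn2, e2]
    have e4 : (m : N) = u • n2 := by
      have : x • ((m : N) - u • n2) = 0 := by
        rw [smul_sub, e1, hn2, smul_comm, sub_self]
      exact sub_eq_zero.1 (hx _ this)
    rw [Submodule.Quotient.mk_eq_zero, memI I hI]
    exact ⟨⟨n2, e3⟩, Subtype.ext e4⟩
  infer_instance

/-- the map `N → (v-torsion)`, `n ↦ u n`. -/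
def AInf.U (h : AInf T x u v) (N : Type*) [AddCommGroup N] [Module T N] :
    N →ₗ[T] Submodule.torsionBy T N v :=
  LinearMap.codRestrict _ (LinearMap.lsmul T N u) (by
    intro n
    rw [Submodule.mem_torsionBy_iff, LinearMap.lsmul_apply, smul_smul, mul_comm, h.uv, zero_smul])

theorem AInf.U_apply (h : AInf T x u v) (n : N) : ((h.U N n : Submodule.torsionBy T N v) : N) = u • n := rfl

/-- lifting of functionals. -/
theorem AInf.lift (h : AInf T x u v)
    (hx : ∀ n : N, x • n = 0 → n = 0)
    (hw : ∀ n n' : N, (u + v) • n = x • n' → ∃ n'' : N, n = x • n'')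
    (I : Ideal T) (hle : Ideal.span {v} ≤ I)
    (lam : (Submodule.torsionBy T N v ⧸ (I • ⊤ : Submodule T (Submodule.torsionBy T N v)))
      →ₗ[T ⧸ I] (T ⧸ I)) :
    ∃ L : Submodule.torsionBy T N v →ₗ[T] (T ⧸ Ideal.span {v}),
      ∀ m, Ideal.Quotient.factor hle (L m) = lam (Submodule.Quotient.mk m) := by
  have hfree := h.free1 hx hw
  have hfin' : Module.Finite (T ⧸ Ideal.span {v}) (Submodule.torsionBy T N v) :=
    Module.Finite.of_restrictScalars_finite T _ _
  let bas := Module.Free.chooseBasis (T ⧸ Ideal.span {v}) (Submodule.torsionBy T N v)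
  have hsurj : Function.Surjective (Ideal.Quotient.factor hle) := Ideal.Quotient.factor_surjective hle
  choose l hl using fun i => hsurj (lam (Submodule.Quotient.mk (bas i)))
  let L0 : Submodule.torsionBy T N v →ₗ[T ⧸ Ideal.span {v}] (T ⧸ Ideal.span {v}) :=
    bas.constr ℕ l
  have hL0 : ∀ i, L0 (bas i) = l i := fun i => by simp [L0]
  refine ⟨L0.restrictScalars T, ?_⟩
  intro m
  show Ideal.Quotient.factor hle (L0 m) = _
  rw [← bas.sum_repr m]
  generalize (bas.repr m) = c
  rw [map_sum, map_sum]
  have hmk : (Submodule.Quotient.mk (∑ i, c i • bas i) :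
      (Submodule.torsionBy T N v ⧸ (I • ⊤ : Submodule T (Submodule.torsionBy T N v)))) =
      ∑ i, Submodule.Quotient.mk (c i • bas i) := by
    rw [← Submodule.mkQ_apply, map_sum]; rfl
  rw [hmk, map_sum]
  refine Finset.sum_congr rfl (fun i _ => ?_)
  rw [map_smul, hL0, smul_eq_mul, map_mul, hl]
  obtain ⟨t, ht⟩ := Ideal.Quotient.mk_surjective (c i)
  rw [← ht]
  have e1 : (Submodule.Quotient.mk ((Ideal.Quotient.mk (Ideal.span {v}) t) • bas i) :
      (Submodule.torsionBy T N v ⧸ (I • ⊤ : Submodule T (Submodule.torsionBy T N v)))) =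
      (Ideal.Quotient.mk I t) • Submodule.Quotient.mk (bas i) := rfl
  rw [e1, map_smul, smul_eq_mul]
  rfl

/-- If `Γ = 0` and `N` is killed by `v`, an indecomposable `N` is cyclic. -/
theorem AInf.cyclic_of_killed (h : AInf T x u v)
    (hx : ∀ n : N, x • n = 0 → n = 0)
    (hw : ∀ n n' : N, (u + v) • n = x • n' → ∃ n'' : N, n = x • n'')
    (hv : ∀ n : N, v • n = 0)
    (indec : ∀ N1 N2 : Submodule T N, IsCompl N1 N2 → N1 = ⊥ ∨ N2 = ⊥) :
    ∃ e : N, Submodule.span T {e} = ⊤ := by
  classical
  have hfree := h.free1 hx hw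
  have hfin' : Module.Finite (T ⧸ Ideal.span {v}) (Submodule.torsionBy T N v) :=
    Module.Finite.of_restrictScalars_finite T _ _
  have hloc : IsLocalRing (T ⧸ Ideal.span {v}) := quot_local _ (span_v_ne_top h.vmem)
  let bas := Module.Free.chooseBasis (T ⧸ Ideal.span {v}) (Submodule.torsionBy T N v)
  by_cases hemp : IsEmpty (Module.Free.ChooseBasisIndex (T ⧸ Ideal.span {v}) (Submodule.torsionBy T N v))
  · refine ⟨0, ?_⟩
    rw [eq_top_iff]
    intro n _
    have : (⟨n, hv n⟩ : Submodule.torsionBy T N v) = 0 := by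
      rw [← bas.sum_repr ⟨n, hv n⟩]
      simp
    have h0 : n = 0 := congrArg Subtype.val this
    rw [h0]; exact Submodule.zero_mem _
  · rw [not_isEmpty_iff] at hemp
    obtain ⟨i0⟩ := hemp
    let J : N →ₗ[T] Submodule.torsionBy T N v := LinearMap.codRestrict _ LinearMap.id hv
    let c0 : N →ₗ[T] (T ⧸ Ideal.span {v}) := ((bas.coord i0).restrictScalars T) ∘ₗ J
    have hc0 : c0 (bas i0 : N) = 1 := by
      have : J (bas i0 : N) = bas i0 := rfl
      show bas.coord i0 (J (bas i0 : N)) = 1
      rw [this]; simp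
    have hcompl : IsCompl (Submodule.span T {(bas i0 : N)}) (LinearMap.ker c0) := by
      constructor
      · rw [Submodule.disjoint_def]
        intro n hn hn0
        obtain ⟨t, rfl⟩ := Submodule.mem_span_singleton.1 hn
        rw [LinearMap.mem_ker, map_smul, hc0] at hn0
        have ht : Ideal.Quotient.mk (Ideal.span {v}) t = 0 := by
          rw [← hn0, Algebra.smul_def, mul_one]; rfl
        rw [Ideal.Quotient.eq_zero_iff_mem, Ideal.mem_span_singleton] at ht
        obtain ⟨s, rfl⟩ := ht
        rw [mul_comm, mul_smul, hv, smul_zero]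
      · rw [codisjoint_iff, eq_top_iff]
        intro n _
        obtain ⟨t, ht⟩ := Ideal.Quotient.mk_surjective (c0 n)
        rw [Submodule.mem_sup]
        refine ⟨t • (bas i0 : N), Submodule.smul_mem _ _ (Submodule.mem_span_singleton_self _),
          n - t • (bas i0 : N), ?_, by abel⟩
        rw [LinearMap.mem_ker, map_sub, map_smul, hc0, ← ht, Algebra.smul_def, mul_one]
        exact sub_self _
    rcases indec _ _ hcompl with h1 | h1
    · exfalso
      rw [Submodule.span_singleton_eq_bot] at h1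
      rw [h1, map_zero] at hc0
      exact zero_ne_one hc0
    · refine ⟨(bas i0 : N), ?_⟩
      rw [← hcompl.sup_eq_top, h1, sup_bot_eq]

/-- Indecomposable modules of depth two are generated by two elements. -/
theorem AInf.two_gen' (h : AInf T x u v)
    (hx : ∀ n : N, x • n = 0 → n = 0)
    (hw : ∀ n n' : N, (u + v) • n = x • n' → ∃ n'' : N, n = x • n'')
    (indec : ∀ N1 N2 : Submodule T N, IsCompl N1 N2 → N1 = ⊥ ∨ N2 = ⊥) :
    ∃ e1 e2 : N, Submodule.span T {e1, e2} = ⊤ := by
  classical
  -- symmetric data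
  have h' := h.symm
  have hw' : ∀ n n' : N, (v + u) • n = x • n' → ∃ n'' : N, n = x • n'' := by
    intro n n' hn; rw [add_comm] at hn; exact hw n n' hn
  -- an element killed by u and v vanishes
  have hZ : ∀ n : N, u • n = 0 → v • n = 0 → n = 0 := by
    have hbot : (Submodule.torsionBy T N v ⊓ Submodule.torsionBy T N u) = ⊥ := by
      apply Submodule.eq_bot_of_le_smul_of_le_jacobson_bot (Ideal.span {x}) _
        (IsNoetherian.noetherian _)
      · rintro n ⟨hn1, hn2⟩
        have hn1' : v • n = 0 := hn1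
        have hn2' : u • n = 0 := hn2
        obtain ⟨n2, hn⟩ := hw n 0 (by rw [add_smul, hn1', hn2']; simp)
        have hv2 : v • n2 = 0 := hx _ (by rw [smul_comm, ← hn, hn1'])
        have hu2 : u • n2 = 0 := hx _ (by rw [smul_comm, ← hn, hn2'])
        rw [hn]
        exact Submodule.smul_mem_smul (Ideal.mem_span_singleton_self x) ⟨hv2, hu2⟩
      · rw [IsLocalRing.jacobson_eq_maximalIdeal _ bot_ne_top, Ideal.span_le]
        rintro _ rfl
        exact h.xmem
    intro n hu hv
    have : n ∈ (Submodule.torsionBy T N v ⊓ Submodule.torsionBy T N u) := ⟨hv, hu⟩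
    rw [hbot] at this
    simpa using this
  let I : Ideal T := Ideal.span {u, v}
  have hI : I = Ideal.span {u, v} := rfl
  have hI' : I = Ideal.span {v, u} := by rw [hI, Set.pair_comm]
  have hle1 : Ideal.span {v} ≤ I := Ideal.span_mono (by simp)
  have hle2 : Ideal.span {u} ≤ I := Ideal.span_mono (by simp)
  have hne : I ≠ ⊤ := h.puv.ne_top
  have hCloc : IsLocalRing (T ⧸ I) := quot_local _ hne
  have hCdom : IsDomain (T ⧸ I) := h.domC I hI
  have hCmax := h.maxC I hI
  have hCpir : IsPrincipalIdealRing (T ⧸ I) := pir_of_principal _ hCmax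
  let X1 := (Submodule.torsionBy T N v ⧸ (I • ⊤ : Submodule T (Submodule.torsionBy T N v)))
  let X2 := (Submodule.torsionBy T N u ⧸ (I • ⊤ : Submodule T (Submodule.torsionBy T N u)))
  have hf1 : Module.Free (T ⧸ I) X1 := h.freeX hx hw I hI
  have hf2 : Module.Free (T ⧸ I) X2 := h'.freeX hx hw' I hI'
  have hfin1 : Module.Finite (T ⧸ I) X1 := Module.Finite.of_restrictScalars_finite T _ _
  have hfin2 : Module.Finite (T ⧸ I) X2 := Module.Finite.of_restrictScalars_finite T _ _
  let f1 : N →ₗ[T] X1 := (Submodule.mkQ _) ∘ₗ h.U N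
  let f2 : N →ₗ[T] X2 := (Submodule.mkQ _) ∘ₗ h'.U N
  have hf1mem : ∀ (n : N) (m : Submodule.torsionBy T N v), f1 n = Submodule.Quotient.mk m →
      ∃ m' : Submodule.torsionBy T N v, u • n = (m : N) + u • (m' : N) := by
    intro n m hnm
    have : (Submodule.Quotient.mk (h.U N n - m) : X1) = 0 := by
      rw [Submodule.Quotient.mk_sub, ← hnm]; exact sub_self _
    rw [Submodule.Quotient.mk_eq_zero, memI I hI] at this
    obtain ⟨m', hm'⟩ := this
    refine ⟨m', ?_⟩
    have e := congrArg Subtype.val hm'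
    have e' : u • n - (m : N) = u • (m' : N) := e
    rw [← e']; abel
  have hf2mem : ∀ (n : N) (m : Submodule.torsionBy T N u), f2 n = Submodule.Quotient.mk m →
      ∃ m' : Submodule.torsionBy T N u, v • n = (m : N) + v • (m' : N) := by
    intro n m hnm
    have : (Submodule.Quotient.mk (h'.U N n - m) : X2) = 0 := by
      rw [Submodule.Quotient.mk_sub, ← hnm]; exact sub_self _
    rw [Submodule.Quotient.mk_eq_zero, memI I hI'] at this
    obtain ⟨m', hm'⟩ := this
    refine ⟨m', ?_⟩
    have e := congrArg Subtype.val hm'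
    have e' : v • n - (m : N) = v • (m' : N) := e
    rw [← e']; abel
  have hf1mk : ∀ (n : N) (m m' : Submodule.torsionBy T N v), u • n = (m : N) + u • (m' : N) →
      f1 n = Submodule.Quotient.mk m := by
    intro n m m' hn
    have e1 : h.U N n = m + u • m' := Subtype.ext hn
    show (Submodule.Quotient.mk (h.U N n) : X1) = _
    rw [e1, Submodule.Quotient.mk_add, add_eq_left, Submodule.Quotient.mk_eq_zero, memI I hI]
    exact ⟨m', rfl⟩
  have hf2mk : ∀ (n : N) (m m' : Submodule.torsionBy T N u), v • n = (m : N) + v • (m' : N) →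
      f2 n = Submodule.Quotient.mk m := by
    intro n m m' hn
    have e1 : h'.U N n = m + v • m' := Subtype.ext hn
    show (Submodule.Quotient.mk (h'.U N n) : X2) = _
    rw [e1, Submodule.Quotient.mk_add, add_eq_left, Submodule.Quotient.mk_eq_zero, memI I hI']
    exact ⟨m', rfl⟩
  -- Γ
  let Γ : Submodule (T ⧸ I) (X1 × X2) :=
    { carrier := {g | ∃ n : N, g = (f1 n, f2 n)}
      add_mem' := by
        rintro _ _ ⟨n, rfl⟩ ⟨n', rfl⟩
        exact ⟨n + n', by rw [map_add, map_add]; rfl⟩
      zero_mem' := ⟨0, by rw [map_zero, map_zero]; rfl⟩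
      smul_mem' := by
        rintro c _ ⟨n, rfl⟩
        obtain ⟨t, rfl⟩ := Ideal.Quotient.mk_surjective c
        exact ⟨t • n, by rw [map_smul, map_smul]; rfl⟩ }
  have hΓ : ∀ g, g ∈ Γ ↔ ∃ n : N, g = (f1 n, f2 n) := fun g => Iff.rfl
  have hmul0 : ∀ n : Submodule.torsionBy T N v, v • (n : N) = 0 := fun n => n.2
  have hmul0' : ∀ n : Submodule.torsionBy T N u, u • (n : N) = 0 := fun n => n.2
  have h1 : ∀ p : X1, (p, (0 : X2)) ∈ Γ → p = 0 := by
    rintro p ⟨n, hn⟩
    have hp : p = f1 n := congrArg Prod.fst hn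
    have h0 : f2 n = Submodule.Quotient.mk 0 := (congrArg Prod.snd hn).symm
    obtain ⟨m', hm'⟩ := hf2mem n 0 h0
    rw [hp]
    -- n - m' in torsionBy v
    have hv : v • (n - (m' : N)) = 0 := by
      rw [smul_sub, hm']; simp
    have := hf1mk n 0 ⟨n - (m' : N), hv⟩ (by
      show u • n = ((0 : Submodule.torsionBy T N v) : N) + u • (n - (m' : N))
      rw [smul_sub, hmul0' m']; simp)
    rw [this]; exact Submodule.Quotient.mk_zero _
  have h2 : ∀ q : X2, ((0 : X1), q) ∈ Γ → q = 0 := by
    rintro q ⟨n, hn⟩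
    have hp : q = f2 n := congrArg Prod.snd hn
    have h0 : f1 n = Submodule.Quotient.mk 0 := (congrArg Prod.fst hn).symm
    obtain ⟨m', hm'⟩ := hf1mem n 0 h0
    rw [hp]
    have hv : u • (n - (m' : N)) = 0 := by
      rw [smul_sub, hm']; simp
    have := hf2mk n 0 ⟨n - (m' : N), hv⟩ (by
      show v • n = ((0 : Submodule.torsionBy T N u) : N) + v • (n - (m' : N))
      rw [smul_sub, hmul0 m']; simp)
    rw [this]; exact Submodule.Quotient.mk_zero _
  have hxΓ : ∀ g : X1 × X2, (Ideal.Quotient.mk I x) • g ∈ Γ → g ∈ Γ := by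
    rintro ⟨p, q⟩ ⟨n, hn⟩
    obtain ⟨m1, rfl⟩ := Submodule.Quotient.mk_surjective _ p
    obtain ⟨m2, rfl⟩ := Submodule.Quotient.mk_surjective _ q
    have e1 : f1 n = Submodule.Quotient.mk (x • m1) := (congrArg Prod.fst hn).symm
    have e2 : f2 n = Submodule.Quotient.mk (x • m2) := (congrArg Prod.snd hn).symm
    obtain ⟨a1, ha1⟩ := hf1mem _ _ e1
    obtain ⟨a2, ha2⟩ := hf2mem _ _ e2
    have ha1' : u • n = x • (m1 : N) + u • (a1 : N) := ha1
    have ha2' : v • n = x • (m2 : N) + v • (a2 : N) := ha2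
    have e3 : u • (n - a1 - a2) = x • (m1 : N) := by
      rw [smul_sub, smul_sub, hmul0' a2, ha1']; abel
    have e4 : v • (n - a1 - a2) = x • (m2 : N) := by
      rw [smul_sub, smul_sub, hmul0 a1, ha2']; abel
    obtain ⟨n3, hn3⟩ := hw (n - a1 - a2) ((m1 : N) + (m2 : N)) (by
      rw [add_smul, e3, e4, smul_add])
    have e5 : u • n3 = (m1 : N) := by
      have : x • (u • n3 - (m1 : N)) = 0 := by
        rw [smul_sub, smul_comm, ← hn3, e3, sub_self]
      exact sub_eq_zero.1 (hx _ this)
    have e6 : v • n3 = (m2 : N) := by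
      have : x • (v • n3 - (m2 : N)) = 0 := by
        rw [smul_sub, smul_comm, ← hn3, e4, sub_self]
      exact sub_eq_zero.1 (hx _ this)
    refine ⟨n3, ?_⟩
    have e7 := hf1mk n3 m1 0 (by rw [e5]; simp)
    have e8 := hf2mk n3 m2 0 (by rw [e6]; simp)
    rw [e7, e8]
  have h3 : ∀ (c : T ⧸ I) (g : X1 × X2), c ≠ 0 → c • g ∈ Γ → g ∈ Γ := by
    intro c g hc hg
    obtain ⟨k, d, hd, rfl⟩ := exists_unit_mul_pow _ hCmax c hc
    obtain ⟨d', hd'⟩ := hd.exists_left_inv
    have e1 : (Ideal.Quotient.mk I x) ^ k • g ∈ Γ := by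
      have := Γ.smul_mem d' hg
      rw [smul_smul, ← mul_assoc, hd', one_mul] at this
      exact this
    have key : ∀ (k : ℕ) (g : X1 × X2), (Ideal.Quotient.mk I x) ^ k • g ∈ Γ → g ∈ Γ := by
      intro k
      induction k with
      | zero => intro g hg; simpa using hg
      | succ k ih => intro g hg; rw [pow_succ, mul_smul] at hg; exact hxΓ _ (ih _ hg)
    exact key k g e1
  by_cases h4 : Γ = ⊥
  · -- N = M1 ⊕ M2
    have hcompl : IsCompl (Submodule.torsionBy T N v) (Submodule.torsionBy T N u) := by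
      constructor
      · rw [Submodule.disjoint_def]
        intro n hn1 hn2
        exact hZ n hn2 hn1
      · rw [codisjoint_iff, eq_top_iff]
        intro n _
        have hn : (f1 n, f2 n) ∈ Γ := ⟨n, rfl⟩
        rw [h4, Submodule.mem_bot] at hn
        obtain ⟨a1, ha1⟩ := hf1mem n 0 (congrArg Prod.fst hn)
        obtain ⟨a2, ha2⟩ := hf2mem n 0 (congrArg Prod.snd hn)
        have ha1' : u • n = u • (a1 : N) := by rw [ha1]; simp
        have ha2' : v • n = v • (a2 : N) := by rw [ha2]; simp
        have e : n - a1 - a2 = 0 := by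
          apply hZ
          · rw [smul_sub, smul_sub, hmul0' a2, ha1']; simp
          · rw [smul_sub, smul_sub, hmul0 a1, ha2']; simp
        rw [Submodule.mem_sup]
        exact ⟨a1, a1.2, a2, a2.2, by rw [sub_sub, sub_eq_zero] at e; exact e.symm⟩
    rcases indec _ _ hcompl with h5 | h5
    · have htop : Submodule.torsionBy T N u = ⊤ := by
        rw [← hcompl.sup_eq_top, h5, bot_sup_eq]
      obtain ⟨e, he⟩ := h'.cyclic_of_killed hx hw' (fun n => by
        have : n ∈ Submodule.torsionBy T N u := by rw [htop]; exact Submodule.mem_top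
        exact this) indec
      exact ⟨e, e, by simpa using he⟩
    · have htop : Submodule.torsionBy T N v = ⊤ := by
        rw [← hcompl.sup_eq_top, h5, sup_bot_eq]
      obtain ⟨e, he⟩ := h.cyclic_of_killed hx hw (fun n => by
        have : n ∈ Submodule.torsionBy T N v := by rw [htop]; exact Submodule.mem_top
        exact this) indec
      exact ⟨e, e, by simpa using he⟩
  · obtain ⟨p0, q0, lam, mu, a, b, hlam, hmu, hab, hcop, hdec⟩ := glue_split Γ h1 h2 h3 h4
    obtain ⟨L1, hL1⟩ := h.lift hx hw I hle1 lam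
    obtain ⟨L2, hL2⟩ := h'.lift hx hw' I hle2 mu
    obtain ⟨P0, rfl⟩ := Submodule.Quotient.mk_surjective _ p0
    obtain ⟨Q0, rfl⟩ := Submodule.Quotient.mk_surjective _ q0
    obtain ⟨a', rfl⟩ := Ideal.Quotient.mk_surjective a
    obtain ⟨b', rfl⟩ := Ideal.Quotient.mk_surjective b
    -- gamma
    obtain ⟨n0, hn0⟩ := hab
    have g1 : f1 n0 = Submodule.Quotient.mk (a' • P0) := (congrArg Prod.fst hn0).symm
    have g2 : f2 n0 = Submodule.Quotient.mk (b' • Q0) := (congrArg Prod.snd hn0).symm
    obtain ⟨m1, hm1⟩ := hf1mem _ _ g1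
    obtain ⟨m2, hm2⟩ := hf2mem _ _ g2
    have hm1' : u • n0 = a' • (P0 : N) + u • (m1 : N) := hm1
    have hm2' : v • n0 = b' • (Q0 : N) + v • (m2 : N) := hm2
    let gam : N := n0 - m1 - m2
    have hgu : u • gam = a' • (P0 : N) := by
      show u • (n0 - m1 - m2) = _
      rw [smul_sub, smul_sub, hmul0' m2, hm1']; abel
    have hgv : v • gam = b' • (Q0 : N) := by
      show v • (n0 - m1 - m2) = _
      rw [smul_sub, smul_sub, hmul0 m1, hm2']; abel
    -- inverses
    have hloc1 : IsLocalRing (T ⧸ Ideal.span {v}) := quot_local _ (span_v_ne_top h.vmem)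
    have hloc2 : IsLocalRing (T ⧸ Ideal.span {u}) := quot_local _ (span_v_ne_top h.umem)
    have hinv1 : ∃ r : T, r • L1 P0 = 1 := by
      obtain ⟨t, ht⟩ := Ideal.Quotient.mk_surjective (L1 P0)
      have e1 : Ideal.Quotient.mk I t = 1 := by
        rw [← hlam, ← hL1, ← ht]; rfl
      have e2 : IsUnit t := by
        by_contra hcon
        have : t ∈ maximalIdeal T := hcon
        have e3 : t - 1 ∈ I := by
          rw [← Ideal.Quotient.eq_zero_iff_mem, map_sub, e1, map_one, sub_self]
        have e4 : (1 : T) ∈ maximalIdeal T := by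
          have := (maximalIdeal T).sub_mem this (IsLocalRing.le_maximalIdeal hne e3)
          rwa [sub_sub_cancel] at this
        exact (maximalIdeal.isMaximal T).ne_top ((Ideal.eq_top_iff_one _).2 e4)
      obtain ⟨r, hr⟩ := e2.exists_left_inv
      refine ⟨r, ?_⟩
      rw [← ht, Algebra.smul_def, Ideal.Quotient.algebraMap_eq, ← map_mul, hr, map_one]
    have hinv2 : ∃ r : T, r • L2 Q0 = 1 := by
      obtain ⟨t, ht⟩ := Ideal.Quotient.mk_surjective (L2 Q0)
      have e1 : Ideal.Quotient.mk I t = 1 := by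
        rw [← hmu, ← hL2, ← ht]; rfl
      have e2 : IsUnit t := by
        by_contra hcon
        have : t ∈ maximalIdeal T := hcon
        have e3 : t - 1 ∈ I := by
          rw [← Ideal.Quotient.eq_zero_iff_mem, map_sub, e1, map_one, sub_self]
        have e4 : (1 : T) ∈ maximalIdeal T := by
          have := (maximalIdeal T).sub_mem this (IsLocalRing.le_maximalIdeal hne e3)
          rwa [sub_sub_cancel] at this
        exact (maximalIdeal.isMaximal T).ne_top ((Ideal.eq_top_iff_one _).2 e4)
      obtain ⟨r, hr⟩ := e2.exists_left_inv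
      refine ⟨r, ?_⟩
      rw [← ht, Algebra.smul_def, Ideal.Quotient.algebraMap_eq, ← map_mul, hr, map_one]
    obtain ⟨r1, hr1⟩ := hinv1
    obtain ⟨r2, hr2⟩ := hinv2
    -- the two submodules
    let W1 : Submodule T N := (Submodule.span T {P0}).comap (h.U N) ⊓ (Submodule.span T {Q0}).comap (h'.U N)
    let W2 : Submodule T N := LinearMap.ker (L1 ∘ₗ h.U N) ⊓ LinearMap.ker (L2 ∘ₗ h'.U N)
    have hUP : h.U N (P0 : N) = u • P0 := rfl
    have hUQ : h.U N (Q0 : N) = 0 := Subtype.ext (hmul0' Q0)
    have hVP : h'.U N (P0 : N) = 0 := Subtype.ext (hmul0 P0)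
    have hVQ : h'.U N (Q0 : N) = v • Q0 := rfl
    have hUg : h.U N gam = a' • P0 := Subtype.ext hgu
    have hVg : h'.U N gam = b' • Q0 := Subtype.ext hgv
    have hP0W : (P0 : N) ∈ W1 := by
      constructor
      · rw [SetLike.mem_coe, Submodule.mem_comap, hUP]; exact Submodule.smul_mem _ _ (Submodule.mem_span_singleton_self _)
      · rw [SetLike.mem_coe, Submodule.mem_comap, hVP]; exact Submodule.zero_mem _
    have hQ0W : (Q0 : N) ∈ W1 := by
      constructor
      · rw [SetLike.mem_coe, Submodule.mem_comap, hUQ]; exact Submodule.zero_mem _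
      · rw [SetLike.mem_coe, Submodule.mem_comap, hVQ]; exact Submodule.smul_mem _ _ (Submodule.mem_span_singleton_self _)
    have hgW : gam ∈ W1 := by
      constructor
      · rw [SetLike.mem_coe, Submodule.mem_comap, hUg]; exact Submodule.smul_mem _ _ (Submodule.mem_span_singleton_self _)
      · rw [SetLike.mem_coe, Submodule.mem_comap, hVg]; exact Submodule.smul_mem _ _ (Submodule.mem_span_singleton_self _)
    have hdecomp : ∀ n : N, ∃ c s s' : T, n - (c • gam + s • (P0 : N) + s' • (Q0 : N)) ∈ W2 := by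
      intro n
      obtain ⟨c, hc1, hc2⟩ := hdec (f1 n, f2 n) ⟨n, rfl⟩
      obtain ⟨c, rfl⟩ := Ideal.Quotient.mk_surjective c
      have k1 : L1 (h.U N (n - c • gam)) ∈ Ideal.map (Ideal.Quotient.mk (Ideal.span {v})) I := by
        rw [← Ideal.Quotient.factor_ker hle1, RingHom.mem_ker, hL1]
        have : (Submodule.Quotient.mk (h.U N (n - c • gam)) : X1) = f1 n - c • f1 gam := by
          show f1 (n - c • gam) = _
          rw [map_sub, map_smul]
        rw [this, map_sub]
        have e : c • f1 gam = (Ideal.Quotient.mk I (c * a')) • (Submodule.Quotient.mk P0 : X1) := by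
          show c • (Submodule.Quotient.mk (h.U N gam) : X1) = _
          rw [hUg, map_mul, mul_smul]; rfl
        have hc1' : lam (f1 n) = Ideal.Quotient.mk I c * Ideal.Quotient.mk I a' := hc1
        rw [e, map_smul, hlam, hc1', smul_eq_mul, mul_one, map_mul, sub_self]
      have k2 : L2 (h'.U N (n - c • gam)) ∈ Ideal.map (Ideal.Quotient.mk (Ideal.span {u})) I := by
        rw [← Ideal.Quotient.factor_ker hle2, RingHom.mem_ker, hL2]
        have : (Submodule.Quotient.mk (h'.U N (n - c • gam)) : X2) = f2 n - c • f2 gam := by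
          show f2 (n - c • gam) = _
          rw [map_sub, map_smul]
        rw [this, map_sub]
        have e : c • f2 gam = (Ideal.Quotient.mk I (c * b')) • (Submodule.Quotient.mk Q0 : X2) := by
          show c • (Submodule.Quotient.mk (h'.U N gam) : X2) = _
          rw [hVg, map_mul, mul_smul]; rfl
        have hc2' : mu (f2 n) = Ideal.Quotient.mk I c * Ideal.Quotient.mk I b' := hc2
        rw [e, map_smul, hmu, hc2', smul_eq_mul, mul_one, map_mul, sub_self]
      have k1' : ∃ s : T, L1 (h.U N (n - c • gam)) = Ideal.Quotient.mk _ (u * s) := by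
        obtain ⟨i, hi, hi'⟩ := (Ideal.mem_map_iff_of_surjective _ Ideal.Quotient.mk_surjective).1 k1
        obtain ⟨p, q, hpq⟩ := Ideal.mem_span_pair.1 hi
        refine ⟨p, ?_⟩
        rw [← hi', ← hpq, map_add]
        have : Ideal.Quotient.mk (Ideal.span {v}) (q * v) = 0 :=
          Ideal.Quotient.eq_zero_iff_mem.2 (Ideal.mem_span_singleton.2 (Dvd.intro_left q rfl))
        rw [this, add_zero, mul_comm]
      have k2' : ∃ s : T, L2 (h'.U N (n - c • gam)) = Ideal.Quotient.mk _ (v * s) := by
        obtain ⟨i, hi, hi'⟩ := (Ideal.mem_map_iff_of_surjective _ Ideal.Quotient.mk_surjective).1 k2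
        obtain ⟨p, q, hpq⟩ := Ideal.mem_span_pair.1 hi
        refine ⟨q, ?_⟩
        rw [← hi', ← hpq, map_add]
        have : Ideal.Quotient.mk (Ideal.span {u}) (p * u) = 0 :=
          Ideal.Quotient.eq_zero_iff_mem.2 (Ideal.mem_span_singleton.2 (Dvd.intro_left p rfl))
        rw [this, zero_add, mul_comm]
      obtain ⟨s, hs⟩ := k1'
      obtain ⟨s', hs'⟩ := k2'
      refine ⟨c, s * r1, s' * r2, ?_⟩
      have esplit : n - (c • gam + (s * r1) • (P0 : N) + (s' * r2) • (Q0 : N)) =
          (n - c • gam) - (s * r1) • (P0 : N) - (s' * r2) • (Q0 : N) := by abel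
      rw [esplit]
      constructor
      · show L1 (h.U N _) = 0
        rw [map_sub, map_sub, map_sub, map_sub, hs, map_smul, map_smul, map_smul, map_smul, hUP, hUQ,
          map_zero, smul_zero, sub_zero, map_smul, smul_smul]
        have : (s * r1 * u) • L1 P0 = (u * s) • (r1 • L1 P0) := by rw [smul_smul]; congr 1; ring
        rw [this, hr1, Algebra.smul_def, mul_one]
        exact sub_self _
      · show L2 (h'.U N _) = 0
        rw [map_sub, map_sub, map_sub, map_sub, hs', map_smul, map_smul, map_smul, map_smul, hVP, hVQ,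
          map_zero, smul_zero, sub_zero, map_smul, smul_smul]
        have : (s' * r2 * v) • L2 Q0 = (v * s') • (r2 • L2 Q0) := by rw [smul_smul]; congr 1; ring
        rw [this, hr2, Algebra.smul_def, mul_one]
        exact sub_self _
    have hcompl : IsCompl W1 W2 := by
      constructor
      · rw [Submodule.disjoint_def]
        rintro n ⟨hn1, hn2⟩ ⟨hn3, hn4⟩
        apply hZ
        · obtain ⟨t, ht⟩ := Submodule.mem_span_singleton.1 hn1
          have e1 : L1 (h.U N n) = 0 := hn3
          rw [← ht, map_smul] at e1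
          have e2 : Ideal.Quotient.mk (Ideal.span {v}) t = 0 := by
            have : (r1 * t) • L1 P0 = 0 := by rw [mul_smul, e1, smul_zero]
            rw [mul_comm, mul_smul, hr1, Algebra.smul_def, mul_one] at this
            exact this
          rw [Ideal.Quotient.eq_zero_iff_mem, Ideal.mem_span_singleton] at e2
          obtain ⟨t', rfl⟩ := e2
          have e3 : h.U N n = 0 := by
            rw [← ht, mul_comm, mul_smul, Submodule.smul_torsionBy, smul_zero]
          exact congrArg Subtype.val e3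
        · obtain ⟨t, ht⟩ := Submodule.mem_span_singleton.1 hn2
          have e1 : L2 (h'.U N n) = 0 := hn4
          rw [← ht, map_smul] at e1
          have e2 : Ideal.Quotient.mk (Ideal.span {u}) t = 0 := by
            have : (r2 * t) • L2 Q0 = 0 := by rw [mul_smul, e1, smul_zero]
            rw [mul_comm, mul_smul, hr2, Algebra.smul_def, mul_one] at this
            exact this
          rw [Ideal.Quotient.eq_zero_iff_mem, Ideal.mem_span_singleton] at e2
          obtain ⟨t', rfl⟩ := e2
          have e3 : h'.U N n = 0 := by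
            rw [← ht, mul_comm, mul_smul, Submodule.smul_torsionBy, smul_zero]
          exact congrArg Subtype.val e3
      · rw [codisjoint_iff, eq_top_iff]
        intro n _
        obtain ⟨c, s, s', hcs⟩ := hdecomp n
        rw [Submodule.mem_sup]
        refine ⟨c • gam + s • (P0 : N) + s' • (Q0 : N), ?_, _, hcs, by abel⟩
        exact W1.add_mem (W1.add_mem (W1.smul_mem _ hgW) (W1.smul_mem _ hP0W)) (W1.smul_mem _ hQ0W)
    rcases indec _ _ hcompl with h5 | h5
    · exfalso
      rw [h5, Submodule.mem_bot] at hP0W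
      have : P0 = 0 := Subtype.ext hP0W
      rw [this, map_zero, smul_zero] at hr1
      exact zero_ne_one hr1
    · have hgen : ∀ n : N, ∃ c s s' : T, n = c • gam + s • (P0 : N) + s' • (Q0 : N) := by
        intro n
        obtain ⟨c, s, s', hcs⟩ := hdecomp n
        rw [h5, Submodule.mem_bot, sub_eq_zero] at hcs
        exact ⟨c, s, s', hcs⟩
      have hlift : ∀ t : T, IsUnit (Ideal.Quotient.mk I t) → IsUnit t := by
        intro t ht
        by_contra hcon
        have h6 : t ∈ maximalIdeal T := hcon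
        have h7 : Ideal.Quotient.mk I t ∈ maximalIdeal (T ⧸ I) := by
          rw [max_quot _ hne]; exact Ideal.mem_map_of_mem _ h6
        exact h7 ht
      obtain ⟨r, s, hrs⟩ := hcop
      rcases IsLocalRing.isUnit_or_isUnit_of_add_one hrs with hu | hu
      · have ha' : IsUnit a' := hlift _ (isUnit_of_mul_isUnit_right hu)
        obtain ⟨ai, hai⟩ := ha'.exists_left_inv
        refine ⟨gam, (Q0 : N), ?_⟩
        rw [eq_top_iff]
        intro n _
        obtain ⟨c, s, s', rfl⟩ := hgen n
        have eP : (P0 : N) = (ai * u) • gam := by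
          rw [mul_smul, hgu, smul_smul, hai, one_smul]
        rw [Submodule.mem_span_pair]
        refine ⟨c + s * (ai * u), s', ?_⟩
        rw [add_smul, mul_smul s, ← eP]
      · have hb' : IsUnit b' := hlift _ (isUnit_of_mul_isUnit_right hu)
        obtain ⟨bi, hbi⟩ := hb'.exists_left_inv
        refine ⟨gam, (P0 : N), ?_⟩
        rw [eq_top_iff]
        intro n _
        obtain ⟨c, s, s', rfl⟩ := hgen n
        have eQ : (Q0 : N) = (bi * v) • gam := by
          rw [mul_smul, hgv, smul_smul, hbi, one_smul]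
        rw [Submodule.mem_span_pair]
        refine ⟨c + s' * (bi * v), s, ?_⟩
        rw [add_smul, mul_smul s', ← eQ]; abel

/-- Indecomposable modules with a regular sequence of length two are generated by two elements. -/
theorem AInf.two_gen (h : AInf T x u v) (a b : T) (ha : a ∈ maximalIdeal T) (hb : b ∈ maximalIdeal T)
    (hra : ∀ n : N, a • n = 0 → n = 0) (hrb : ∀ n n' : N, b • n = a • n' → ∃ n'', n = a • n'')
    (indec : ∀ N1 N2 : Submodule T N, IsCompl N1 N2 → N1 = ⊥ ∨ N2 = ⊥) :
    ∃ e1 e2 : N, Submodule.span T {e1, e2} = ⊤ :=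
  h.two_gen' (fun n hn => h.xregular a b ha hb hra hrb n hn)
    (fun n n' hn => h.wregular a b ha hb hra hrb n n' hn) indec

end

end Pool.Agent.H661R3.CM
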