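import Pool.Agent.H661R3.CM.Free

/-! Syzygies of `(u, x^n, x^(n-1) v, ..., v^n)`. -/

set_option autoImplicit false
set_option linter.unusedSectionVars false

namespace Pool.Agent.H661R3.CM

open IsLocalRing

/-- more properties of the `A_∞` surface ring -/
structure AInf2 (T : Type*) [CommRing T] [IsLocalRing T] (x u v : T) : Prop extends AInf T x u v where
  cap : ∀ s t, u * s = v * t → u * s = 0
  xuv : x ∉ Ideal.span {u, v}
  wreg : ∀ t s, (u + v) * t = x * s → x ∣ t

section
variable {T : Type*} [CommRing T] [IsLocalRing T] [IsNoetherianRing T] {x u v : T}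

theorem AInf2.capv (h : AInf2 T x u v) {s t : T} (hst : u * s = v * t) : v * t = 0 := by
  rw [← hst]; exact h.cap s t hst

theorem AInf2.xpow (h : AInf2 T x u v) (n : ℕ) (b : T) (hb : b * x ^ n ∈ Ideal.span {u, v}) :
    b ∈ Ideal.span {u, v} := by
  rcases h.puv.mem_or_mem hb with h1 | h1
  · exact h1
  · exact absurd (h.puv.mem_of_pow_mem _ h1) h.xuv

theorem AInf2.coeff_mem (h : AInf2 T x u v) : ∀ (n : ℕ) (b : ℕ → T),
    u ∣ ∑ j ∈ Finset.range (n + 1), b j * (x ^ (n - j) * v ^ j) →
    ∀ j, j ≤ n → b j ∈ maximalIdeal T := by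
  intro n
  induction n with
  | zero =>
    intro b hb j hj
    obtain rfl : j = 0 := by omega
    simp at hb
    obtain ⟨c, hc⟩ := hb
    rw [hc]
    exact Ideal.mul_mem_right _ _ h.umem
  | succ n ih =>
    intro b hb
    rw [Finset.sum_range_succ'] at hb
    simp only [Nat.add_sub_add_right, pow_zero, mul_one, Nat.sub_zero] at hb
    have hsum : ∑ j ∈ Finset.range (n + 1), b (j + 1) * (x ^ (n - j) * v ^ (j + 1)) =
        v * ∑ j ∈ Finset.range (n + 1), b (j + 1) * (x ^ (n - j) * v ^ j) := by
      rw [Finset.mul_sum]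
      refine Finset.sum_congr rfl (fun j _ => ?_)
      rw [pow_succ]; ring
    rw [hsum] at hb
    set S := ∑ j ∈ Finset.range (n + 1), b (j + 1) * (x ^ (n - j) * v ^ j) with hS
    obtain ⟨r, hr⟩ := hb
    have h0 : b 0 ∈ Ideal.span {u, v} := by
      apply h.xpow (n + 1)
      have : b 0 * x ^ (n + 1) = r * u + (-S) * v := by
        linear_combination hr
      rw [this]
      exact Ideal.mem_span_pair.2 ⟨r, -S, rfl⟩
    obtain ⟨c, d, hcd⟩ := Ideal.mem_span_pair.1 h0
    have h1 : u * (r - c * x ^ (n + 1)) = v * (d * x ^ (n + 1) + S) := by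
      rw [← hcd] at hr
      linear_combination -hr
    have h2 := h.capv h1
    have h3 := h.annv _ h2
    have h4 : d * x ^ (n + 1) + S =
        ∑ j ∈ Finset.range (n + 1), (if j = 0 then b 1 + d * x else b (j + 1)) * (x ^ (n - j) * v ^ j) := by
      rw [hS, Finset.sum_range_succ', Finset.sum_range_succ']
      simp only [Nat.add_eq_zero_iff, one_ne_zero, and_false, if_false, if_true, pow_zero, mul_one,
        Nat.sub_zero, zero_add]
      ring
    rw [h4] at h3
    have h5 := ih _ h3
    have hx := h.xmem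
    intro j hj
    rcases Nat.eq_zero_or_pos j with rfl | hj0
    · rw [← hcd]
      exact (maximalIdeal T).add_mem (Ideal.mul_mem_left _ _ h.umem) (Ideal.mul_mem_left _ _ h.vmem)
    · rcases Nat.lt_or_ge 1 j with hj1 | hj1
      · have := h5 (j - 1) (by omega)
        rw [if_neg (by omega), Nat.sub_add_cancel (by omega)] at this
        exact this
      · obtain rfl : j = 1 := by omega
        have := h5 0 (by omega)
        rw [if_pos rfl] at this
        have h6 := (maximalIdeal T).sub_mem this (Ideal.mul_mem_left _ d hx)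
        rwa [add_sub_cancel_right] at h6

/-- the standard row -/
def gs (x u v : T) (n : ℕ) : Option (Fin (n + 1)) → T
  | none => u
  | some j => x ^ (n - (j : ℕ)) * v ^ (j : ℕ)

/-- the kernel of a row -/
abbrev KR {S : Type*} [CommRing S] {ι : Type*} [Fintype ι] (g : ι → S) : Submodule S (ι → S) :=
  LinearMap.ker (Fintype.linearCombination S g)

theorem mem_KR {S : Type*} [CommRing S] {ι : Type*} [Fintype ι] (g b : ι → S) :
    b ∈ KR g ↔ ∑ i, b i * g i = 0 := by
  rw [LinearMap.mem_ker, Fintype.linearCombination_apply]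
  simp only [smul_eq_mul]

theorem AInf2.functional_mem (h : AInf2 T x u v) (n : ℕ) (hn : 1 ≤ n)
    (lam : KR (gs x u v n) →ₗ[T] T) (b : KR (gs x u v n)) : lam b ∈ maximalIdeal T := by
  classical
  have hb := (mem_KR _ _).1 b.2
  rw [Fintype.sum_option] at hb
  simp only [gs] at hb
  set a := (b : Option (Fin (n + 1)) → T) none with ha
  -- b as a function on ℕ
  let bb : ℕ → T := fun j => if hj : j < n + 1 then (b : Option (Fin (n + 1)) → T) (some ⟨j, hj⟩) else 0
  have hbb : ∀ j : Fin (n + 1), (b : Option (Fin (n + 1)) → T) (some j) = bb j := by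
    intro j
    simp only [bb, j.2, dif_pos]
  have hsum : ∑ j : Fin (n + 1), (b : Option (Fin (n + 1)) → T) (some j) * (x ^ (n - (j : ℕ)) * v ^ (j : ℕ)) =
      ∑ j ∈ Finset.range (n + 1), bb j * (x ^ (n - j) * v ^ j) := by
    rw [Finset.sum_range]
    refine Finset.sum_congr rfl (fun j _ => ?_)
    rw [hbb]
  rw [hsum] at hb
  have hmem : ∀ j, j ≤ n → bb j ∈ maximalIdeal T := by
    apply h.coeff_mem n bb
    exact ⟨-a, by linear_combination hb⟩
  -- split off j = 0
  have hb' := hb
  rw [Finset.sum_range_succ'] at hb'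
  simp only [pow_zero, mul_one, Nat.sub_zero] at hb'
  obtain ⟨S, hS⟩ : v ∣ ∑ j ∈ Finset.range n, bb (j + 1) * (x ^ (n - (j + 1)) * v ^ (j + 1)) := by
    apply Finset.dvd_sum
    intro j _
    rw [pow_succ]
    exact ⟨bb (j + 1) * (x ^ (n - (j + 1)) * v ^ j), by ring⟩
  rw [hS] at hb'
  have h0 : bb 0 ∈ Ideal.span {u, v} := by
    apply h.xpow n
    have : bb 0 * x ^ n = (-a) * u + (-S) * v := by linear_combination hb'
    rw [this]
    exact Ideal.mem_span_pair.2 ⟨-a, -S, rfl⟩
  obtain ⟨d', c, hcd⟩ := Ideal.mem_span_pair.1 h0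
  have h1 : u * (a + x ^ n * d') = v * (-(S + c * x ^ n)) := by
    rw [← hcd] at hb'
    linear_combination hb'
  have h2 := h.cap _ _ h1
  -- elements
  let q'' : Option (Fin (n + 1)) → T := fun i => match i with
    | none => x ^ n
    | some j => if j = 0 then -u else 0
  have hq'' : q'' ∈ KR (gs x u v n) := by
    rw [mem_KR, Fintype.sum_option]
    simp only [q'', gs]
    rw [Finset.sum_eq_single (0 : Fin (n + 1))]
    · simp; ring
    · intro j _ hj; simp [hj]
    · intro h; exact absurd (Finset.mem_univ _) h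
  let q : Fin (n + 1) → Option (Fin (n + 1)) → T := fun j => if j = 0 then 0 else Pi.single (some j) u
  have hq : ∀ j, q j ∈ KR (gs x u v n) := by
    intro j
    by_cases hj : j = 0
    · simp only [q, hj, if_true]; exact Submodule.zero_mem _
    · simp only [q, hj, if_false]
      rw [mem_KR]
      rw [Finset.sum_eq_single (some j)]
      · simp only [Pi.single_eq_same, gs]
        have hj' : (j : ℕ) ≠ 0 := fun h => hj (Fin.ext h)
        obtain ⟨m, hm⟩ := Nat.exists_eq_succ_of_ne_zero hj'
        rw [hm, pow_succ]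
        have := h.uv
        linear_combination (x ^ (n - m.succ) * v ^ m) * this
      · intro i _ hi
        rw [Pi.single_eq_of_ne hi, zero_mul]
      · intro h; exact absurd (Finset.mem_univ _) h
  have hp' : (Pi.single none v : Option (Fin (n + 1)) → T) ∈ KR (gs x u v n) := by
    rw [mem_KR, Finset.sum_eq_single none]
    · simp only [Pi.single_eq_same, gs]; rw [mul_comm]; exact h.uv
    · intro i _ hi
      rw [Pi.single_eq_of_ne hi, zero_mul]
    · intro h; exact absurd (Finset.mem_univ _) h
  -- lam q'' ∈ m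
  have hlq : lam ⟨q'', hq''⟩ ∈ maximalIdeal T := by
    have e1 : v • (⟨q'', hq''⟩ : KR (gs x u v n)) = x ^ n • ⟨_, hp'⟩ := by
      apply Subtype.ext
      funext i
      show v * q'' i = x ^ n * (Pi.single none v : Option (Fin (n + 1)) → T) i
      match i with
      | none => simp [q'', mul_comm]
      | some j =>
        simp only [q'']
        rw [Pi.single_eq_of_ne (by simp)]
        split_ifs
        · have := h.uv; linear_combination -this
        · ring
    have e2 : u • (⟨_, hp'⟩ : KR (gs x u v n)) = 0 := by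
      apply Subtype.ext
      funext i
      show u * (Pi.single none v : Option (Fin (n + 1)) → T) i = 0
      match i with
      | none => simp [h.uv]
      | some j => rw [Pi.single_eq_of_ne (by simp), mul_zero]
    have e3 : u * lam ⟨_, hp'⟩ = 0 := by
      rw [← smul_eq_mul, ← map_smul, e2, map_zero]
    obtain ⟨θ, hθ⟩ := h.annu _ e3
    have e4 : v * (lam ⟨q'', hq''⟩ - x ^ n * θ) = 0 := by
      have : v * lam ⟨q'', hq''⟩ = x ^ n * lam ⟨_, hp'⟩ := by
        rw [← smul_eq_mul, ← map_smul, e1, map_smul, smul_eq_mul]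
      rw [mul_sub, this, hθ]; ring
    obtain ⟨r, hr⟩ := h.annv _ e4
    have e5 : lam ⟨q'', hq''⟩ = u * r + x ^ n * θ := by rw [← hr]; ring
    rw [e5]
    apply (maximalIdeal T).add_mem (Ideal.mul_mem_right _ _ h.umem)
    apply Ideal.mul_mem_right
    exact Ideal.pow_mem_of_mem _ h.xmem _ (by omega)
  -- lam (q j) ∈ u T
  have hη : ∀ j, ∃ η, lam ⟨q j, hq j⟩ = u * η := by
    intro j
    have e1 : v • (⟨q j, hq j⟩ : KR (gs x u v n)) = 0 := by
      apply Subtype.ext
      show v • q j = 0
      by_cases hj : j = 0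
      · simp [q, hj]
      · simp only [q, hj, if_false]
        rw [← Pi.single_smul, smul_eq_mul, mul_comm, h.uv, Pi.single_zero]
    have e2 : v * lam ⟨q j, hq j⟩ = 0 := by
      rw [← smul_eq_mul, ← map_smul, e1, map_zero]
    exact h.annv _ e2
  choose η hη using hη
  -- decomposition of u b
  have hdec : u • b = (-d' * u) • (⟨q'', hq''⟩ : KR (gs x u v n)) +
      ∑ j : Fin (n + 1), bb j • (⟨q j, hq j⟩ : KR (gs x u v n)) := by
    apply Subtype.ext
    rw [Submodule.coe_add, Submodule.coe_sum]
    funext i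
    rw [Pi.add_apply, Finset.sum_apply]
    show u * (b : Option (Fin (n + 1)) → T) i = (-d' * u) * q'' i + ∑ j : Fin (n + 1), bb j * q j i
    match i with
    | none =>
      have : ∑ j : Fin (n + 1), bb j * q j none = 0 := by
        apply Finset.sum_eq_zero
        intro j _
        by_cases hj : j = 0
        · simp [q, hj]
        · simp [q, hj]
      rw [this]
      simp only [q'']
      rw [← ha]
      linear_combination h2
    | some i0 =>
      rw [hbb]
      by_cases hi : i0 = 0
      · subst hi
        have : ∑ j : Fin (n + 1), bb j * q j (some 0) = 0 := by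
          apply Finset.sum_eq_zero
          intro j _
          by_cases hj : j = 0
          · simp [q, hj]
          · have : (some (0 : Fin (n + 1))) ≠ some j := fun h => hj (Option.some_injective _ h).symm
            simp only [q, hj, if_false]
            rw [Pi.single_eq_of_ne this, mul_zero]
        rw [this]
        simp only [q'', if_true]
        have h3 := h.uv
        show u * bb 0 = _
        rw [← hcd]
        linear_combination c * h3
      · rw [Finset.sum_eq_single i0]
        · simp only [q'', q, hi, if_false, Pi.single_eq_same]; ring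
        · intro j _ hj
          by_cases hj0 : j = 0
          · simp [q, hj0]
          · have : (some i0) ≠ some j := fun h => hj (Option.some_injective _ h).symm
            simp only [q, hj0, if_false]
            rw [Pi.single_eq_of_ne this, mul_zero]
        · intro h; exact absurd (Finset.mem_univ _) h
  have e1 : u * lam b = -d' * u * lam ⟨q'', hq''⟩ + ∑ j : Fin (n + 1), bb j * (u * η j) := by
    have e0 : u * lam b = lam (u • b) := by rw [map_smul, smul_eq_mul]
    rw [e0, hdec, map_add, map_smul, map_sum, smul_eq_mul]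
    congr 1
    refine Finset.sum_congr rfl (fun j _ => ?_)
    rw [map_smul, smul_eq_mul, hη]
  have e2 : u * (lam b + d' * lam ⟨q'', hq''⟩ - ∑ j : Fin (n + 1), bb j * η j) = 0 := by
    have : ∑ j : Fin (n + 1), bb j * (u * η j) = u * ∑ j : Fin (n + 1), bb j * η j := by
      rw [Finset.mul_sum]
      refine Finset.sum_congr rfl (fun j _ => ?_)
      ring
    rw [this] at e1
    linear_combination e1
  obtain ⟨r, hr⟩ := h.annu _ e2
  have e3 : lam b = v * r - d' * lam ⟨q'', hq''⟩ + ∑ j : Fin (n + 1), bb j * η j := by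
    rw [← hr]; ring
  rw [e3]
  apply (maximalIdeal T).add_mem
  · exact (maximalIdeal T).sub_mem (Ideal.mul_mem_right _ _ h.vmem) (Ideal.mul_mem_left _ _ hlq)
  · apply Ideal.sum_mem
    intro j _
    exact Ideal.mul_mem_right _ _ (hmem j (by omega))

/-- `ker u / v N` is cyclic when `u` is in the ideal of the row. -/
theorem AInf.cyclic (h : AInf T x u v) {ι : Type*} [Fintype ι] (g : ι → T)
    (hu : u ∈ Ideal.span (Set.range g)) :
    ∃ e : KR g, u • e = 0 ∧ ∀ b : KR g, u • b = 0 → ∃ (r : T) (z : KR g), b = r • e + v • z := by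
  classical
  obtain ⟨c, hc⟩ := (Submodule.mem_span_range_iff_exists_fun T).1 hu
  have hc' : ∑ i, c i * g i = u := hc
  have he : v • c ∈ KR g := by
    rw [mem_KR]
    have : ∑ i, (v • c) i * g i = v * ∑ i, c i * g i := by
      rw [Finset.mul_sum]
      refine Finset.sum_congr rfl (fun i _ => ?_)
      rw [Pi.smul_apply, smul_eq_mul]; ring
    rw [this, hc', mul_comm, h.uv]
  refine ⟨⟨v • c, he⟩, ?_, ?_⟩
  · apply Subtype.ext
    show u • (v • c) = 0
    rw [smul_smul, h.uv, zero_smul]
  · intro b hb
    have hb' : ∀ i, v ∣ (b : ι → T) i := by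
      intro i
      apply h.annu
      exact congrFun (congrArg Subtype.val hb) i
    choose b' hb' using hb'
    have h1 := (mem_KR _ _).1 b.2
    have h2 : v * ∑ i, b' i * g i = 0 := by
      rw [← h1, Finset.mul_sum]
      refine Finset.sum_congr rfl (fun i _ => ?_)
      rw [hb']; ring
    obtain ⟨r, hr⟩ := h.annv _ h2
    have hz : b' - r • c ∈ KR g := by
      rw [mem_KR]
      have : ∑ i, (b' - r • c) i * g i = ∑ i, b' i * g i - r * ∑ i, c i * g i := by
        rw [Finset.mul_sum, ← Finset.sum_sub_distrib]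
        refine Finset.sum_congr rfl (fun i _ => ?_)
        rw [Pi.sub_apply, Pi.smul_apply, smul_eq_mul]; ring
      rw [this, hr, hc']; ring
    refine ⟨r, ⟨_, hz⟩, ?_⟩
    apply Subtype.ext
    funext i
    show (b : ι → T) i = r * (v * c i) + v * (b' i - r * c i)
    rw [hb']; ring

/-- functionals on the kernel of an equivalent row -/
theorem AInf2.functional_mem' (h : AInf2 T x u v) (n : ℕ) (hn : 1 ≤ n)
    (g : Option (Fin (n + 1)) → T) (G : Matrix (Option (Fin (n + 1))) (Option (Fin (n + 1))) T)
    (hG : IsUnit G.det) (hg : ∀ i, g i = ∑ j, G i j * gs x u v n j)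
    (lam : KR g →ₗ[T] T) (b : KR g) : lam b ∈ maximalIdeal T := by
  classical
  -- c ↦ c G⁻¹ maps KR gs to KR g
  have hdot : ∀ c : Option (Fin (n + 1)) → T, ∑ i, c i * g i = ∑ j, (Matrix.vecMul c G) j * gs x u v n j := by
    intro c
    simp only [hg, Matrix.vecMul, dotProduct, Finset.mul_sum, Finset.sum_mul]
    rw [Finset.sum_comm]
    refine Finset.sum_congr rfl (fun i _ => Finset.sum_congr rfl (fun j _ => ?_))
    ring
  have hinv1 : G⁻¹ * G = 1 := Matrix.nonsing_inv_mul G hG
  have hinv2 : G * G⁻¹ = 1 := Matrix.mul_nonsing_inv G hG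
  have hmap : ∀ c ∈ KR (gs x u v n), Matrix.vecMulLinear G⁻¹ c ∈ KR g := by
    intro c hc
    rw [mem_KR, hdot]
    rw [Matrix.vecMulLinear_apply, Matrix.vecMul_vecMul, hinv1, Matrix.vecMul_one]
    exact (mem_KR _ _).1 hc
  let F : KR (gs x u v n) →ₗ[T] KR g := (Matrix.vecMulLinear G⁻¹).restrict hmap
  have hb : Matrix.vecMul (b : Option (Fin (n + 1)) → T) G ∈ KR (gs x u v n) := by
    rw [mem_KR, ← hdot]
    exact (mem_KR _ _).1 b.2
  have hFb : F ⟨_, hb⟩ = b := by
    apply Subtype.ext
    show Matrix.vecMulLinear G⁻¹ (Matrix.vecMul (b : Option (Fin (n + 1)) → T) G) = b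
    rw [Matrix.vecMulLinear_apply, Matrix.vecMul_vecMul, hinv2, Matrix.vecMul_one]
  have := h.functional_mem n hn (lam ∘ₗ F) ⟨_, hb⟩
  rwa [LinearMap.comp_apply, hFb] at this

/-- `m^n ≤ (u, x^n, …, v^n)` -/
theorem AInf.pow_le (h : AInf T x u v) (n : ℕ) :
    maximalIdeal T ^ n ≤ Ideal.span (Set.range (gs x u v n)) := by
  induction n with
  | zero =>
    have : (1 : T) ∈ Ideal.span (Set.range (gs x u v 0)) := by
      apply Ideal.subset_span
      exact ⟨some 0, by simp [gs]⟩
    rw [(Ideal.eq_top_iff_one _).2 this]; exact le_top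
  | succ n ih =>
    rw [pow_succ]
    refine (Ideal.mul_mono_left ih).trans ?_
    rw [h.max, Ideal.span_mul_span', Ideal.span_le]
    rintro _ ⟨_, ⟨i, rfl⟩, t, ht, rfl⟩
    show gs x u v n i * t ∈ Ideal.span (Set.range (gs x u v (n + 1)))
    have hu : u ∈ Ideal.span (Set.range (gs x u v (n + 1))) := Ideal.subset_span ⟨none, rfl⟩
    match i with
    | none => exact Ideal.mul_mem_right _ _ hu
    | some j =>
      rcases ht with rfl | rfl | rfl
      · apply Ideal.subset_span
        refine ⟨some ⟨j, by omega⟩, ?_⟩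
        simp only [gs]
        have : n + 1 - (j : ℕ) = (n - j) + 1 := by omega
        rw [this, pow_succ]; ring
      · exact Ideal.mul_mem_left _ _ hu
      · apply Ideal.subset_span
        refine ⟨some ⟨j + 1, by omega⟩, ?_⟩
        simp only [gs]
        have : n + 1 - ((j : ℕ) + 1) = n - j := by omega
        rw [this, pow_succ]; ring

end

/-- approximation of the standard row by a row over `R`. -/
theorem approx {R T : Type*} [CommRing R] [CommRing T] [IsLocalRing T] [IsNoetherianRing T]
    [Algebra R T] {x u v : T} (h : AInf T x u v)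
    (hsurj : ∀ (t : T) (N : ℕ), ∃ r : R, algebraMap R T r - t ∈ maximalIdeal T ^ N)
    (x0 : R) (hx0 : algebraMap R T x0 = x) (n : ℕ) :
    ∃ (g : Option (Fin (n + 1)) → R) (G : Matrix (Option (Fin (n + 1))) (Option (Fin (n + 1))) T),
      g (some 0) = x0 ^ n ∧ IsUnit G.det ∧
      (∀ i, algebraMap R T (g i) = ∑ j, G i j * gs x u v n j) ∧
      u ∈ Ideal.span (Set.range (fun i => algebraMap R T (g i))) := by
  classical
  have h1 : ∀ i : Option (Fin (n + 1)), ∃ r : R, (i = some 0 → r = x0 ^ n) ∧
      algebraMap R T r - gs x u v n i ∈ maximalIdeal T ^ (n + 1) := by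
    intro i
    by_cases hi : i = some 0
    · refine ⟨x0 ^ n, fun _ => rfl, ?_⟩
      rw [hi]
      simp only [gs]
      rw [map_pow, hx0]
      simp
    · obtain ⟨r, hr⟩ := hsurj (gs x u v n i) (n + 1)
      exact ⟨r, fun h => absurd h hi, hr⟩
  choose g hg0 hg using h1
  have h2 : ∀ i, ∃ θ : Option (Fin (n + 1)) → T, (∀ j, θ j ∈ maximalIdeal T) ∧
      ∑ j, θ j * gs x u v n j = algebraMap R T (g i) - gs x u v n i := by
    intro i
    have e1 : algebraMap R T (g i) - gs x u v n i ∈
        maximalIdeal T • Submodule.span T (Set.range (gs x u v n)) := by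
      have := hg i
      rw [pow_succ, mul_comm] at this
      exact (Ideal.mul_mono_right (h.pow_le n)) this
    obtain ⟨a, ha, hsum⟩ := (Submodule.mem_ideal_smul_span_iff_exists_sum _ _ _).1 e1
    refine ⟨a, ha, ?_⟩
    rw [← hsum, Finsupp.sum_fintype]
    · rfl
    · intro i; simp
  choose Θ hΘ hsum using h2
  let G : Matrix (Option (Fin (n + 1))) (Option (Fin (n + 1))) T := 1 + Matrix.of Θ
  have hGdet : IsUnit G.det := by
    by_contra hcon
    have hmem : G.det ∈ maximalIdeal T := hcon
    rw [← Ideal.Quotient.eq_zero_iff_mem] at hmem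
    rw [RingHom.map_det] at hmem
    have : (Ideal.Quotient.mk (maximalIdeal T)).mapMatrix G = 1 := by
      ext i j
      show Ideal.Quotient.mk (maximalIdeal T) ((1 : Matrix _ _ T) i j + Θ i j) = (1 : Matrix _ _ _) i j
      rw [map_add, Ideal.Quotient.eq_zero_iff_mem.2 (hΘ i j), add_zero]
      by_cases hij : i = j
      · subst hij; simp
      · simp [hij]
    rw [this, Matrix.det_one] at hmem
    have hone : (1 : T) ∈ maximalIdeal T := by
      rw [← Ideal.Quotient.eq_zero_iff_mem, map_one]; exact hmem
    exact (maximalIdeal.isMaximal T).ne_top ((Ideal.eq_top_iff_one _).2 hone)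
  have hGg : ∀ i, algebraMap R T (g i) = ∑ j, G i j * gs x u v n j := by
    intro i
    have : ∑ j, G i j * gs x u v n j = ∑ j, (1 : Matrix _ _ T) i j * gs x u v n j + ∑ j, Θ i j * gs x u v n j := by
      rw [← Finset.sum_add_distrib]
      refine Finset.sum_congr rfl (fun j _ => ?_)
      show ((1 : Matrix _ _ T) i j + Θ i j) * _ = _
      ring
    rw [this, hsum i]
    have : ∑ j, (1 : Matrix _ _ T) i j * gs x u v n j = gs x u v n i := by
      rw [Finset.sum_eq_single i]
      · simp
      · intro j _ hj; rw [Matrix.one_apply_ne (Ne.symm hj), zero_mul]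
      · intro h; exact absurd (Finset.mem_univ _) h
    rw [this]; ring
  refine ⟨g, G, hg0 _ rfl, hGdet, hGg, ?_⟩
  have hinv1 : G⁻¹ * G = 1 := Matrix.nonsing_inv_mul G hGdet
  have : u = ∑ i, G⁻¹ none i * algebraMap R T (g i) := by
    have e1 : ∑ i, G⁻¹ none i * algebraMap R T (g i) = ∑ j, (G⁻¹ * G) none j * gs x u v n j := by
      simp only [hGg, Matrix.mul_apply, Finset.mul_sum, Finset.sum_mul]
      rw [Finset.sum_comm]
      refine Finset.sum_congr rfl (fun i _ => Finset.sum_congr rfl (fun j _ => ?_))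
      ring
    rw [e1, hinv1, Finset.sum_eq_single none]
    · simp [gs]
    · intro j _ hj; rw [Matrix.one_apply_ne (Ne.symm hj), zero_mul]
    · intro h; exact absurd (Finset.mem_univ _) h
  rw [this]
  apply Ideal.sum_mem
  intro i _
  exact Ideal.mul_mem_left _ _ (Ideal.subset_span ⟨i, rfl⟩)

end Pool.Agent.H661R3.CM
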