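import Pool.Agent.H661R3.CM.Defs
import Pool.Agent.H661R3.CM.Split
import Pool.Agent.H661R3.CM.BalR

/-! `A_∞` surface rings have bounded Cohen–Macaulay type. -/

set_option autoImplicit false
set_option linter.unusedSectionVars false

namespace Pool.Agent.H661R3.CM

open IsLocalRing
open scoped ENNReal Nat Pointwise

section
variable {S : Type*} [CommRing S]

theorem weaklyRegular_pair_iff (M : Type*) [AddCommGroup M] [Module S M] (a b : S) :
    RingTheory.Sequence.IsWeaklyRegular M [a, b] ↔
      (∀ n : M, a • n = 0 → n = 0) ∧ ∀ n n' : M, b • n = a • n' → ∃ n'', n = a • n'' := by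
  rw [RingTheory.Sequence.isWeaklyRegular_cons_iff, RingTheory.Sequence.isWeaklyRegular_singleton_iff,
    isSMulRegular_iff_right_eq_zero_of_smul, isSMulRegular_iff_right_eq_zero_of_smul]
  constructor
  · rintro ⟨h1, h2⟩
    refine ⟨fun n hn => h1 n hn, ?_⟩
    intro n n' hn
    have : b • (Submodule.Quotient.mk n : QuotSMulTop a M) = 0 := by
      rw [← Submodule.Quotient.mk_smul, Submodule.Quotient.mk_eq_zero]
      exact (Submodule.mem_smul_pointwise_iff_exists _ _ _).2 ⟨n', trivial, hn.symm⟩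
    have h3 := h2 _ this
    rw [Submodule.Quotient.mk_eq_zero] at h3
    obtain ⟨m, -, hm⟩ := (Submodule.mem_smul_pointwise_iff_exists _ _ _).1 h3
    exact ⟨m, hm.symm⟩
  · rintro ⟨h1, h2⟩
    refine ⟨fun n hn => h1 n hn, ?_⟩
    intro m hm
    obtain ⟨n, rfl⟩ := Submodule.Quotient.mk_surjective _ m
    rw [← Submodule.Quotient.mk_smul, Submodule.Quotient.mk_eq_zero] at hm
    obtain ⟨n', -, hn'⟩ := (Submodule.mem_smul_pointwise_iff_exists _ _ _).1 hm
    obtain ⟨n'', rfl⟩ := h2 n n' hn'.symm
    rw [Submodule.Quotient.mk_eq_zero]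
    exact (Submodule.mem_smul_pointwise_iff_exists _ _ _).2 ⟨n'', trivial, rfl⟩

variable [IsLocalRing S] {X : Type*} [AddCommGroup X] [Module S X]

theorem length_quot_max : Module.length S (S ⧸ maximalIdeal S) = 1 := by
  have hs : IsSimpleModule S (S ⧸ maximalIdeal S) := by
    rw [isSimpleModule_iff_isCoatom]
    exact (maximalIdeal.isMaximal S).out
  exact Module.length_eq_one S _

theorem LL_smul_le {ι : Type} [Fintype ι] (f : ι → X) (P : Submodule S X)
    (hP : P = Submodule.span S (Set.range f)) :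
    LL (maximalIdeal S • P) P ≤ Fintype.card ι := by
  classical
  have hf : ∀ i, f i ∈ P := fun i => by rw [hP]; exact Submodule.subset_span ⟨i, rfl⟩
  let Q := ↥P ⧸ (maximalIdeal S • P).submoduleOf P
  let comp : ∀ i : ι, (S ⧸ maximalIdeal S) →ₗ[S] Q := fun i =>
    Submodule.liftQ _ ((Submodule.mkQ _) ∘ₗ (LinearMap.toSpanSingleton S P ⟨f i, hf i⟩)) (by
      intro s hs
      rw [LinearMap.mem_ker, LinearMap.comp_apply, LinearMap.toSpanSingleton_apply, Submodule.mkQ_apply,
        Submodule.Quotient.mk_eq_zero]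
      exact Submodule.smul_mem_smul hs (hf i))
  let ph : (ι → S ⧸ maximalIdeal S) →ₗ[S] Q := ∑ i, (comp i) ∘ₗ (LinearMap.proj i)
  have hsurj : Function.Surjective ph := by
    intro y
    obtain ⟨⟨y, hy⟩, rfl⟩ := Submodule.Quotient.mk_surjective _ y
    have hy' := hy
    rw [hP] at hy'
    obtain ⟨c, hc⟩ := (Submodule.mem_span_range_iff_exists_fun S).1 hy'
    refine ⟨fun i => Submodule.Quotient.mk (c i), ?_⟩
    have h1 : ph (fun i => Submodule.Quotient.mk (c i)) =
        ∑ i, (Submodule.Quotient.mk (c i • (⟨f i, hf i⟩ : P)) : Q) := by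
      rw [LinearMap.sum_apply]
      rfl
    rw [h1]
    have h2 : (⟨y, hy⟩ : P) = ∑ i, c i • (⟨f i, hf i⟩ : P) := by
      apply Subtype.ext
      rw [Submodule.coe_sum]
      exact hc.symm
    rw [h2]
    change _ = Submodule.mkQ _ (∑ i, c i • (⟨f i, hf i⟩ : P))
    rw [map_sum]
    rfl
  calc LL (maximalIdeal S • P) P ≤ Module.length S (ι → S ⧸ maximalIdeal S) :=
        Module.length_le_of_surjective ph hsurj
    _ = Fintype.card ι := by
        rw [Module.length_pi_of_fintype]
        simp [length_quot_max]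

theorem LL_top (A : Submodule S X) : LL A ⊤ = Module.length S (X ⧸ A) := by
  apply LL_eq_of_surj A ⊤ ((Submodule.mkQ A) ∘ₗ (Submodule.subtype ⊤))
  · intro y
    obtain ⟨y, rfl⟩ := Submodule.Quotient.mk_surjective _ y
    exact ⟨⟨y, trivial⟩, rfl⟩
  · ext y
    rw [LinearMap.mem_ker, LinearMap.comp_apply, Submodule.mkQ_apply, Submodule.Quotient.mk_eq_zero]
    exact Iff.rfl

/-- generators of `𝔪^j` -/
def gm (x u v : S) (j : ℕ) : Fin (j + 1) ⊕ Fin (j + 1) → S
  | Sum.inl i => x ^ (j - (i : ℕ)) * u ^ (i : ℕ)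
  | Sum.inr i => x ^ (j - (i : ℕ)) * v ^ (i : ℕ)

theorem AInf.pow_eq {x u v : S} (h : AInf S x u v) (j : ℕ) :
    maximalIdeal S ^ j = Submodule.span S (Set.range (gm x u v j)) := by
  have hx : x ∈ maximalIdeal S := by rw [h.max]; exact Ideal.subset_span (by simp)
  have hu : u ∈ maximalIdeal S := by rw [h.max]; exact Ideal.subset_span (by simp)
  have hv : v ∈ maximalIdeal S := by rw [h.max]; exact Ideal.subset_span (by simp)
  apply le_antisymm
  · induction j with
    | zero =>
      have : (1 : S) ∈ Ideal.span (Set.range (gm x u v 0)) := by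
        apply Ideal.subset_span
        exact ⟨Sum.inl 0, by simp [gm]⟩
      have h1 := (Ideal.eq_top_iff_one _).2 this
      rw [Ideal.submodule_span_eq, h1]; exact le_top
    | succ j ih =>
      rw [pow_succ]
      refine (Ideal.mul_mono_left ih).trans ?_
      rw [h.max, Ideal.submodule_span_eq, Ideal.span_mul_span', Ideal.span_le]
      rintro _ ⟨_, ⟨i, rfl⟩, t, ht, rfl⟩
      show gm x u v j i * t ∈ Ideal.span (Set.range (gm x u v (j + 1)))
      match i with
      | Sum.inl i =>
        rcases ht with rfl | rfl | rfl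
        · apply Ideal.subset_span
          refine ⟨Sum.inl ⟨i, by omega⟩, ?_⟩
          simp only [gm]
          have : j + 1 - (i : ℕ) = (j - i) + 1 := by omega
          rw [this, pow_succ]; ring
        · apply Ideal.subset_span
          refine ⟨Sum.inl ⟨i + 1, by omega⟩, ?_⟩
          simp only [gm]
          have : j + 1 - ((i : ℕ) + 1) = j - i := by omega
          rw [this, pow_succ]; ring
        · by_cases hi : (i : ℕ) = 0
          · apply Ideal.subset_span
            refine ⟨Sum.inr ⟨1, by omega⟩, ?_⟩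
            simp [gm, hi]
          · obtain ⟨m, hm⟩ := Nat.exists_eq_succ_of_ne_zero hi
            have : gm x u t j (Sum.inl i) * t = 0 := by
              simp only [gm]
              rw [hm, pow_succ]
              have := h.uv
              linear_combination (x ^ (j - m.succ) * u ^ m) * this
            rw [this]; exact Ideal.zero_mem _
      | Sum.inr i =>
        rcases ht with rfl | rfl | rfl
        · apply Ideal.subset_span
          refine ⟨Sum.inr ⟨i, by omega⟩, ?_⟩
          simp only [gm]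
          have : j + 1 - (i : ℕ) = (j - i) + 1 := by omega
          rw [this, pow_succ]; ring
        · by_cases hi : (i : ℕ) = 0
          · apply Ideal.subset_span
            refine ⟨Sum.inl ⟨1, by omega⟩, ?_⟩
            simp [gm, hi]
          · obtain ⟨m, hm⟩ := Nat.exists_eq_succ_of_ne_zero hi
            have : gm x t v j (Sum.inr i) * t = 0 := by
              simp only [gm]
              rw [hm, pow_succ]
              have := h.uv
              linear_combination (x ^ (j - m.succ) * v ^ m) * this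
            rw [this]; exact Ideal.zero_mem _
        · apply Ideal.subset_span
          refine ⟨Sum.inr ⟨i + 1, by omega⟩, ?_⟩
          simp only [gm]
          have : j + 1 - ((i : ℕ) + 1) = j - i := by omega
          rw [this, pow_succ]; ring
  · rw [Submodule.span_le]
    rintro _ ⟨i, rfl⟩
    match i with
    | Sum.inl i =>
      have h1 := Ideal.mul_mem_mul (Ideal.pow_mem_pow hx (j - i)) (Ideal.pow_mem_pow hu i)
      rw [← pow_add, Nat.sub_add_cancel (by omega)] at h1
      exact h1
    | Sum.inr i =>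
      have h1 := Ideal.mul_mem_mul (Ideal.pow_mem_pow hx (j - i)) (Ideal.pow_mem_pow hv i)
      rw [← pow_add, Nat.sub_add_cancel (by omega)] at h1
      exact h1

theorem AInf.length_quot_pow_le {x u v : S} (h : AInf S x u v) (j : ℕ) :
    Module.length S (S ⧸ maximalIdeal S ^ j) ≤ ((j * (j + 1) : ℕ) : ℕ∞) := by
  rw [← LL_top]
  induction j with
  | zero =>
    rw [LL_zero]
    · simp
    · rw [pow_zero, Ideal.one_eq_top]
  | succ j ih =>
    rw [LL_add (B := maximalIdeal S ^ j) (Ideal.pow_le_pow_right (Nat.le_succ j)) le_top]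
    have h1 : LL (maximalIdeal S ^ (j + 1)) (maximalIdeal S ^ j) ≤ ((j + 1 + (j + 1) : ℕ) : ℕ∞) := by
      have := LL_smul_le (gm x u v j) (maximalIdeal S ^ j) (h.pow_eq j)
      have e : maximalIdeal S • (maximalIdeal S ^ j) = maximalIdeal S ^ (j + 1) := by
        rw [smul_eq_mul, pow_succ']
      rw [e] at this
      simpa using this
    calc LL (maximalIdeal S ^ (j + 1)) (maximalIdeal S ^ j) + LL (maximalIdeal S ^ j) ⊤
        ≤ ((j + 1 + (j + 1) : ℕ) : ℕ∞) + ((j * (j + 1) : ℕ) : ℕ∞) := add_le_add h1 ih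
      _ = (((j + 1) * (j + 1 + 1) : ℕ) : ℕ∞) := by
        rw [← Nat.cast_add]; congr 1; ring

theorem length_two_gen (I : Ideal S) (e1 e2 : X) (hgen : Submodule.span S {e1, e2} = ⊤) :
    Module.length S (X ⧸ (I • ⊤ : Submodule S X)) ≤ 2 * Module.length S (S ⧸ I) := by
  classical
  let comp : ∀ e : X, (S ⧸ I) →ₗ[S] (X ⧸ (I • ⊤ : Submodule S X)) := fun e =>
    Submodule.liftQ _ ((Submodule.mkQ _) ∘ₗ (LinearMap.toSpanSingleton S X e)) (by
      intro s hs
      rw [LinearMap.mem_ker, LinearMap.comp_apply, LinearMap.toSpanSingleton_apply, Submodule.mkQ_apply,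
        Submodule.Quotient.mk_eq_zero]
      exact Submodule.smul_mem_smul hs Submodule.mem_top)
  let ph : ((S ⧸ I) × (S ⧸ I)) →ₗ[S] (X ⧸ (I • ⊤ : Submodule S X)) := (comp e1).coprod (comp e2)
  have hsurj : Function.Surjective ph := by
    intro y
    obtain ⟨y, rfl⟩ := Submodule.Quotient.mk_surjective _ y
    have hy : y ∈ Submodule.span S {e1, e2} := by rw [hgen]; exact Submodule.mem_top
    obtain ⟨a, b, rfl⟩ := Submodule.mem_span_pair.1 hy
    exact ⟨(Submodule.Quotient.mk a, Submodule.Quotient.mk b), rfl⟩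
  calc Module.length S (X ⧸ (I • ⊤ : Submodule S X)) ≤ Module.length S ((S ⧸ I) × (S ⧸ I)) :=
        Module.length_le_of_surjective ph hsurj
    _ = 2 * Module.length S (S ⧸ I) := by rw [Module.length_prod, two_mul]

end

/-- A two-dimensional Noetherian local ring with the abstract `A_∞` structure has bounded
Cohen–Macaulay type. -/
theorem bounded_of_AInf (S : Type) [CommRing S] [IsLocalRing S] [IsNoetherianRing S] {x u v : S}
    (h : AInf S x u v) (hdim : ringKrullDim S = 2) : BoundedCMType S := by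
  refine ⟨8, ?_⟩
  intro M _ _ hM hind
  obtain ⟨hfin, rs, hrs, hlen, hreg⟩ := hM
  rw [hdim] at hlen
  have hlen' : rs.length = 2 := by
    have : ((rs.length : ℕ∞) : WithBot ℕ∞) = ((2 : ℕ∞) : WithBot ℕ∞) := hlen
    have := WithBot.coe_injective this
    exact_mod_cast this
  obtain ⟨a, b, rfl⟩ := List.length_eq_two.1 hlen'
  have ha := hrs a (by simp)
  have hb := hrs b (by simp)
  obtain ⟨h1, h2⟩ := (weaklyRegular_pair_iff M a b).1 hreg.toIsWeaklyRegular
  obtain ⟨e1, e2, hgen⟩ := h.two_gen a b ha hb h1 h2 hind.2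
  have hd : dimNat S = 2 := by unfold dimNat; rw [hdim]; rfl
  unfold mult
  rw [hd]
  apply Filter.limsup_le_of_le
  · isBoundedDefault
  · filter_upwards [Filter.eventually_ge_atTop 1] with j hj
    have k1 : Module.length S (M ⧸ (maximalIdeal S ^ j • ⊤ : Submodule S M)) ≤ ((4 * j ^ 2 : ℕ) : ℕ∞) := by
      refine (length_two_gen (maximalIdeal S ^ j) e1 e2 hgen).trans ?_
      calc 2 * Module.length S (S ⧸ maximalIdeal S ^ j) ≤ 2 * ((j * (j + 1) : ℕ) : ℕ∞) :=
            mul_le_mul_right (h.length_quot_pow_le j) _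
        _ = ((2 * (j * (j + 1)) : ℕ) : ℕ∞) := by push_cast; ring
        _ ≤ ((4 * j ^ 2 : ℕ) : ℕ∞) := by
          apply Nat.cast_le.2
          nlinarith
    have k2 : ((Module.length S (M ⧸ (maximalIdeal S ^ j • ⊤ : Submodule S M)) : ℕ∞) : ℝ≥0∞) ≤
        ((4 * j ^ 2 : ℕ) : ℝ≥0∞) := by
      have := ENat.toENNReal_le.2 k1
      simpa using this
    apply ENNReal.div_le_of_le_mul
    calc ((2)! : ℝ≥0∞) * ((Module.length S (M ⧸ (maximalIdeal S ^ j • ⊤ : Submodule S M)) : ℕ∞) : ℝ≥0∞)
        ≤ ((2)! : ℝ≥0∞) * ((4 * j ^ 2 : ℕ) : ℝ≥0∞) := mul_le_mul_right k2 _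
      _ = ((8 : ℕ) : ℝ≥0∞) * (j : ℝ≥0∞) ^ 2 := by
        have : ((2)! : ℕ) = 2 := rfl
        push_cast [this]
        ring

end Pool.Agent.H661R3.CM
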